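import Pool.Agent.Work.MP_73869e_nt.N2

set_option autoImplicit false

open Filter Topology Finset MeasureTheory
open Pool.Agent.Work.MP_2dba45_nt.Psum

namespace Pool.Agent.Work.MP_73869e_nt.M3

/-- `-log (1 - q) - q` -/
noncomputable def rem (q : ℝ) : ℝ := -Real.log (1 - q) - q

theorem rem_nonneg {q : ℝ} (hq : q < 1) : 0 ≤ rem q := by
  unfold rem
  have := Real.log_le_sub_one_of_pos (x := 1 - q) (by linarith)
  linarith

theorem rem_le {q : ℝ} (h0 : 0 ≤ q) (hq : q ≤ 1 / 2) : rem q ≤ 2 * q ^ 2 := by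
  unfold rem
  have h := one_sub_ge h0 hq
  have h1 := Real.log_le_log (Real.exp_pos _) h
  rw [Real.log_exp] at h1
  linarith

/-- `k^{-(1+δ)}` on primes, in the form used above -/
noncomputable def q (δ : ℝ) (k : ℕ) : ℝ := ap k * Real.exp (-(δ * Real.log k))

theorem q_nonneg (δ : ℝ) (k : ℕ) : 0 ≤ q δ k := by
  unfold q; have := ap_nonneg k; positivity

theorem ap_le_half (k : ℕ) : ap k ≤ 1 / 2 := by
  unfold ap
  split_ifs with h
  · apply one_div_le_one_div_of_le (by norm_num)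
    exact_mod_cast h.two_le
  · norm_num

theorem q_le_ap {δ : ℝ} (hδ : 0 ≤ δ) (k : ℕ) : q δ k ≤ ap k := by
  unfold q
  have h1 : Real.exp (-(δ * Real.log k)) ≤ 1 := by
    rw [Real.exp_le_one_iff]
    have := Real.log_natCast_nonneg k
    have : 0 ≤ δ * Real.log k := by positivity
    linarith
  calc ap k * Real.exp (-(δ * Real.log k)) ≤ ap k * 1 := by
        have := ap_nonneg k
        gcongr
    _ = ap k := mul_one _

theorem q_zero (k : ℕ) : q 0 k = ap k := by simp [q]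

theorem q_tendsto (k : ℕ) : Tendsto (fun δ : ℝ => q δ k) (𝓝[>] 0) (𝓝 (ap k)) := by
  have h : Continuous (fun δ : ℝ => q δ k) := by unfold q; fun_prop
  have := h.tendsto 0
  rw [q_zero] at this
  exact this.mono_left nhdsWithin_le_nhds

theorem rem_tendsto (k : ℕ) : Tendsto (fun δ : ℝ => rem (q δ k)) (𝓝[>] 0) (𝓝 (rem (ap k))) := by
  have h1 := q_tendsto k
  have h2 : Tendsto (fun δ : ℝ => 1 - q δ k) (𝓝[>] 0) (𝓝 (1 - ap k)) := tendsto_const_nhds.sub h1
  have h3 := h2.log (by have := ap_le_half k; linarith)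
  exact h3.neg.sub h1

theorem rem_bound {δ : ℝ} (hδ : 0 ≤ δ) (k : ℕ) : ‖rem (q δ k)‖ ≤ 2 * (1 / (k : ℝ) ^ 2) := by
  have h1 := q_nonneg δ k
  have h2 := q_le_ap hδ k
  have h3 := ap_le_half k
  rw [Real.norm_of_nonneg (rem_nonneg (by linarith))]
  have h4 : ap k ≤ 1 / (k : ℝ) := by
    unfold ap
    split_ifs
    · exact le_rfl
    · positivity
  calc rem (q δ k) ≤ 2 * (q δ k) ^ 2 := rem_le h1 (by linarith)
    _ ≤ 2 * (1 / (k : ℝ)) ^ 2 := by
        gcongr
        linarith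
    _ = _ := by ring

theorem summ_sq : Summable (fun k : ℕ => 2 * (1 / (k : ℝ) ^ 2)) :=
  (Real.summable_one_div_nat_pow.2 (by norm_num)).mul_left 2

/-- the constant `∑_p (-log(1-1/p) - 1/p)` -/
noncomputable def B0 : ℝ := ∑' k : ℕ, rem (ap k)

theorem rem_tsum_tendsto : Tendsto (fun δ : ℝ => ∑' k : ℕ, rem (q δ k)) (𝓝[>] 0) (𝓝 B0) := by
  apply tendsto_tsum_of_dominated_convergence summ_sq
  · intro k; exact rem_tendsto k
  · filter_upwards [self_mem_nhdsWithin] with δ hδ k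
    exact rem_bound (le_of_lt hδ) k

theorem rem_summable {δ : ℝ} (hδ : 0 ≤ δ) : Summable (fun k : ℕ => rem (q δ k)) :=
  Summable.of_norm_bounded summ_sq (rem_bound hδ)

theorem zeta_log {δ : ℝ} (hδ : 0 < δ) :
    Real.log (riemannZeta ((1 + δ : ℝ) : ℂ)).re = ∑' k : ℕ, -Real.log (1 - q δ k) := by
  have hre : 1 < (((1 + δ : ℝ) : ℂ)).re := by simp [hδ]
  have h := riemannZeta_eulerProduct_exp_log hre
  have h1 : ∀ p : Nat.Primes, -Complex.log (1 - (p : ℂ) ^ (-((1 + δ : ℝ) : ℂ))) =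
      ((-Real.log (1 - q δ p) : ℝ) : ℂ) := by
    intro p
    have hp : (0 : ℝ) ≤ ((p : ℕ) : ℝ) := by positivity
    have e1 : ((p : ℕ) : ℂ) ^ (-((1 + δ : ℝ) : ℂ)) = ((q δ p : ℝ) : ℂ) := by
      rw [show q δ p = ((p : ℕ) : ℝ) ^ (-(1 + δ)) by
        unfold q; rw [ap_exp, if_pos p.2]]
      rw [Complex.ofReal_cpow hp]
      push_cast
      rfl
    rw [e1]
    have h2 : 0 ≤ 1 - q δ p := by
      have := q_le_ap hδ.le p; have := ap_le_half p; linarith
    push_cast
    rw [Complex.ofReal_log h2]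
    push_cast
    rfl
  have h2 : (∑' p : Nat.Primes, -Complex.log (1 - (p : ℂ) ^ (-((1 + δ : ℝ) : ℂ)))) =
      (((∑' k : ℕ, -Real.log (1 - q δ k)) : ℝ) : ℂ) := by
    rw [tsum_congr h1, ← Complex.ofReal_tsum]
    congr 1
    have h3 := tsum_subtype {p : ℕ | p.Prime} (fun k : ℕ => -Real.log (1 - q δ k))
    refine Eq.trans (by rfl) (h3.trans ?_)
    congr 1
    funext k
    by_cases hk : k.Prime
    · rw [Set.indicator_of_mem (by simpa using hk)]
    · rw [Set.indicator_of_notMem (by simpa using hk)]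
      simp [q, ap, hk]
  rw [h2, ← Complex.ofReal_exp] at h
  rw [← h, Complex.ofReal_re, Real.log_exp]

theorem zeta_split {δ : ℝ} (hδ : 0 < δ) :
    Real.log (riemannZeta ((1 + δ : ℝ) : ℂ)).re =
      (∑' k : ℕ, ap k * Real.exp (-(δ * Real.log k))) + ∑' k : ℕ, rem (q δ k) := by
  rw [zeta_log hδ, ← (ap_summable hδ).tsum_add (rem_summable hδ.le)]
  congr 1
  funext k
  unfold rem q
  ring

theorem shift_tendsto : Tendsto (fun δ : ℝ => 1 + δ) (𝓝[>] 0) (𝓝[>] 1) := by
  apply tendsto_nhdsWithin_of_tendsto_nhds_of_eventually_within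
  · have : Tendsto (fun δ : ℝ => 1 + δ) (𝓝 0) (𝓝 (1 + 0)) :=
      (continuous_const.add continuous_id).tendsto 0
    rw [add_zero] at this
    exact this.mono_left nhdsWithin_le_nhds
  · filter_upwards [self_mem_nhdsWithin] with δ hδ
    simp only [Set.mem_Ioi] at hδ ⊢
    linarith

theorem exp_tendsto : Tendsto (fun δ : ℝ => Real.log δ - Real.log (1 - Real.exp (-δ))) (𝓝[>] 0)
    (𝓝 0) := by
  have h1 : Tendsto (fun δ : ℝ => (1 - Real.exp (-δ)) / δ) (𝓝[>] 0) (𝓝 1) := by
    have hd : HasDerivAt (fun δ : ℝ => 1 - Real.exp (-δ)) (1 : ℝ) 0 := by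
      have h0 := ((hasDerivAt_neg (0 : ℝ)).exp).const_sub 1
      simpa using h0
    have h2 := hd.tendsto_slope_zero_right
    simp only [zero_add, neg_zero, Real.exp_zero, sub_self, sub_zero] at h2
    refine h2.congr fun δ => ?_
    simp only [smul_eq_mul]
    ring
  have h3 := h1.log one_ne_zero
  rw [Real.log_one] at h3
  have h4 := h3.neg
  rw [neg_zero] at h4
  refine h4.congr' ?_
  filter_upwards [self_mem_nhdsWithin] with δ hδ
  simp only [Set.mem_Ioi] at hδ
  have h5 : 0 < 1 - Real.exp (-δ) := by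
    have : Real.exp (-δ) < 1 := by rw [Real.exp_lt_one_iff]; linarith
    linarith
  rw [Real.log_div h5.ne' hδ.ne']
  ring

theorem const_eq {M : ℝ}
    (hM : Tendsto (fun N : ℕ => PP N - Real.log (Real.log N)) atTop (𝓝 M)) :
    M + B0 = Real.eulerMascheroniConstant := by
  have h1 := ((compare hM).add exp_tendsto).add rem_tsum_tendsto
  have h2 : Tendsto (fun δ : ℝ => Real.log (riemannZeta ((1 + δ : ℝ) : ℂ)).re +
      Real.log ((1 + δ) - 1)) (𝓝[>] 0) (𝓝 0) := by
    have h := (Asymptotics.isLittleO_one_iff ℝ).1 log_riemannZeta_add_log_sub_isLittleO_ofReal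
    exact h.comp shift_tendsto
  have h3 := h1.congr' (f₂ := fun δ : ℝ => Real.log (riemannZeta ((1 + δ : ℝ) : ℂ)).re +
      Real.log ((1 + δ) - 1)) (by
    filter_upwards [self_mem_nhdsWithin] with δ hδ
    simp only [Set.mem_Ioi] at hδ
    rw [zeta_split hδ, add_sub_cancel_left]
    ring)
  have := tendsto_nhds_unique h3 h2
  linarith

theorem mert_log (y : ℝ) : Real.log (mert y) =
    -PP ⌊y⌋₊ - ∑ k ∈ range (⌊y⌋₊ + 1), rem (ap k) := by
  have h0 : ∀ p ∈ (Finset.Icc 1 ⌊y⌋₊).filter Nat.Prime, (1 - 1 / (p : ℝ)) ≠ 0 := by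
    intro p hp
    simp only [Finset.mem_filter] at hp
    have h2 : (2 : ℝ) ≤ p := by exact_mod_cast hp.2.two_le
    have : 1 / (p : ℝ) ≤ 1 / 2 := one_div_le_one_div_of_le (by norm_num) h2
    linarith
  unfold mert
  rw [Real.log_prod h0]
  have h1 : ∑ k ∈ range (⌊y⌋₊ + 1), rem (ap k) =
      ∑ p ∈ (Finset.Icc 1 ⌊y⌋₊).filter Nat.Prime, rem (1 / (p : ℝ)) := by
    rw [← Finset.sum_subset (s₁ := (Finset.Icc 1 ⌊y⌋₊).filter Nat.Prime)]
    · refine Finset.sum_congr rfl fun p hp => ?_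
      simp only [Finset.mem_filter] at hp
      rw [ap, if_pos hp.2]
    · intro p hp
      simp only [Finset.mem_filter, Finset.mem_Icc] at hp
      rw [Finset.mem_range]
      omega
    · intro p hp hnp
      rw [Finset.mem_range] at hp
      have : ¬ p.Prime := by
        intro hpp
        apply hnp
        simp only [Finset.mem_filter, Finset.mem_Icc]
        exact ⟨⟨hpp.pos, by omega⟩, hpp⟩
      simp [ap, this, rem]
  have h2 : PP ⌊y⌋₊ = ∑ p ∈ (Finset.Icc 1 ⌊y⌋₊).filter Nat.Prime, 1 / (p : ℝ) := by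
    unfold PP
    have : Ioc 0 ⌊y⌋₊ = Icc 1 ⌊y⌋₊ := by
      ext x; simp only [Finset.mem_Ioc, Finset.mem_Icc]; omega
    rw [this]
  rw [h1, h2, ← Finset.sum_neg_distrib, ← Finset.sum_sub_distrib]
  refine Finset.sum_congr rfl fun p _ => ?_
  unfold rem
  ring

theorem mert_pos (y : ℝ) : 0 < mert y := by
  unfold mert
  apply Finset.prod_pos
  intro p hp
  simp only [Finset.mem_filter] at hp
  have h2 : (2 : ℝ) ≤ p := by exact_mod_cast hp.2.two_le
  have : 1 / (p : ℝ) ≤ 1 / 2 := one_div_le_one_div_of_le (by norm_num) h2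
  linarith

end Pool.Agent.Work.MP_73869e_nt.M3

namespace Pool.Agent.Work.MP_73869e_nt

open M3

/-- Mertens' third theorem. -/
theorem mertens_third : Tendsto (fun y : ℝ => mert y * Real.log y) atTop
    (nhds (Real.exp (-Real.eulerMascheroniConstant))) := by
  obtain ⟨M, hM⟩ := exists_M
  have hc := const_eq hM
  have h1 : Tendsto (fun y : ℝ => PP ⌊y⌋₊ - Real.log (Real.log (⌊y⌋₊ : ℝ))) atTop (𝓝 M) :=
    hM.comp tendsto_nat_floor_atTop
  have h2 : Tendsto (fun y : ℝ => ∑ k ∈ range (⌊y⌋₊ + 1), rem (ap k)) atTop (𝓝 B0) := by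
    have hs : Summable (fun k : ℕ => rem (ap k)) := by
      simpa only [q_zero] using rem_summable (δ := 0) le_rfl
    have h := hs.hasSum.tendsto_sum_nat
    exact h.comp ((tendsto_add_atTop_nat 1).comp tendsto_nat_floor_atTop)
  have h3 := ((h1.add loglog_floor).add h2).neg
  have h4 : -(M + 0 + B0) = -Real.eulerMascheroniConstant := by rw [← hc]; ring
  rw [h4] at h3
  have h5 := (Real.continuous_exp.tendsto _).comp h3
  refine h5.congr' ?_
  filter_upwards [eventually_gt_atTop 1] with y hy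
  have hly := Real.log_pos hy
  rw [← Real.exp_log (mert_pos y), ← Real.exp_log hly, ← Real.exp_add, mert_log]
  simp only [Function.comp]
  congr 1
  ring

end Pool.Agent.Work.MP_73869e_nt
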