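import Pool.Agent.Work.MP_73869e_nt.Defs
import Pool.Agent.Work.MP_2dba45_nt.Psum

set_option autoImplicit false

open Filter Topology Finset
open Pool.Agent.Work.MP_2dba45_nt.Mert Pool.Agent.Work.MP_2dba45_nt.Psum

namespace Pool.Agent.Work.MP_73869e_nt.M3

/-- `∑_{p ≤ N} 1/p` -/
noncomputable def PP (N : ℕ) : ℝ := ∑ p ∈ (Ioc 0 N).filter Nat.Prime, 1 / (p : ℝ)

/-- partial summation with a decaying error -/
theorem psum' (a : ℕ → ℝ) (C : ℝ) (hC0 : 0 ≤ C)
    (hC : ∀ N : ℕ, 0 < N → |∑ n ∈ Ioc 0 N, a n * (Real.log n / n) - Real.log N| ≤ C)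
    (w z : ℕ) (hw : 2 ≤ w) (hwz : w ≤ z) :
    |∑ n ∈ Ioc w z, a n / n - (Real.log (Real.log z) - Real.log (Real.log w))| ≤
      (2 * C + 1) * (1 / Real.log ((w + 1 : ℕ) : ℝ)) + 6 / w := by
  have hI : ∀ w z : ℕ, Ioc w z = Ico (w + 1) (z + 1) := by
    intro w z; ext x; simp only [Finset.mem_Ioc, Finset.mem_Ico]; omega
  set c : ℕ → ℝ := fun n => (a n * (Real.log n / n) - (Real.log n - Real.log ((n - 1 : ℕ) : ℝ))) /
    (2 * C + 1) with hc
  have hCpos : 0 < 2 * C + 1 := by linarith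
  have hS : ∀ m, w + 1 ≤ m → |∑ j ∈ Ico (w + 1) m, c j| ≤ 1 := by
    intro m hm
    obtain ⟨m, rfl⟩ : ∃ k, m = k + 1 := ⟨m - 1, by omega⟩
    have hm' : w ≤ m := by omega
    have e1 : ∑ j ∈ Ico (w + 1) (m + 1), a j * (Real.log j / j) =
        ∑ n ∈ Ioc 0 m, a n * (Real.log n / n) - ∑ n ∈ Ioc 0 w, a n * (Real.log n / n) := by
      rw [hI 0 m, hI 0 w, ← Finset.sum_Ico_consecutive _ (show 0 + 1 ≤ w + 1 by omega)
        (show w + 1 ≤ m + 1 by omega)]
      ring
    have e2 : ∑ j ∈ Ico (w + 1) (m + 1), (Real.log j - Real.log ((j - 1 : ℕ) : ℝ)) =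
        Real.log m - Real.log w := by
      clear hm
      induction m, hm' using Nat.le_induction with
      | base => simp
      | succ m hm ih =>
        have e1' : ∑ j ∈ Ico (w + 1) (m + 1), a j * (Real.log j / j) =
            ∑ n ∈ Ioc 0 m, a n * (Real.log n / n) - ∑ n ∈ Ioc 0 w, a n * (Real.log n / n) := by
          rw [hI 0 m, hI 0 w, ← Finset.sum_Ico_consecutive _ (show 0 + 1 ≤ w + 1 by omega)
            (show w + 1 ≤ m + 1 by omega)]
          ring
        rw [Finset.sum_Ico_succ_top (by omega), ih e1']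
        simp
    have e3 : ∑ j ∈ Ico (w + 1) (m + 1), c j =
        ((∑ n ∈ Ioc 0 m, a n * (Real.log n / n) - Real.log m) -
          (∑ n ∈ Ioc 0 w, a n * (Real.log n / n) - Real.log w)) / (2 * C + 1) := by
      rw [hc, ← Finset.sum_div, Finset.sum_sub_distrib, e1, e2]
      ring
    rw [e3, abs_div, abs_of_pos hCpos, div_le_one hCpos]
    have h1 := hC m (by omega)
    have h2 := hC w (by omega)
    have := abs_sub (∑ n ∈ Ioc 0 m, a n * (Real.log n / n) - Real.log m)
          (∑ n ∈ Ioc 0 w, a n * (Real.log n / n) - Real.log w)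
    linarith
  have hlog : ∀ n : ℕ, w + 1 ≤ n → 0 < Real.log n := by
    intro n hn
    apply Real.log_pos
    exact_mod_cast (by omega : 1 < n)
  have hab := abel_bound c (fun n => 1 / Real.log n) (w + 1) (z + 1) (by omega) hS
    (fun n hn => by have := hlog n hn; positivity)
    (fun n hn => by
      have := hlog n hn
      apply one_div_le_one_div_of_le this
      apply Real.log_le_log
      · exact_mod_cast (by omega : 0 < n)
      · push_cast; linarith)
  have hls := log_sum w z hw hwz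
  have e4 : ∑ n ∈ Ioc w z, a n / n =
      (2 * C + 1) * ∑ n ∈ Ico (w + 1) (z + 1), c n * (1 / Real.log n) +
      ∑ n ∈ Ico (w + 1) (z + 1),
        (Real.log n - Real.log ((n - 1 : ℕ) : ℝ)) * (1 / Real.log n) := by
    rw [hI, Finset.mul_sum, ← Finset.sum_add_distrib]
    refine Finset.sum_congr rfl fun n hn => ?_
    rw [Finset.mem_Ico] at hn
    have := (hlog n hn.1).ne'
    have hn0 : (n : ℝ) ≠ 0 := by
      have : 0 < n := by omega
      positivity
    simp only [hc]
    field_simp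
    ring
  have h5 : |(2 * C + 1) * ∑ n ∈ Ico (w + 1) (z + 1), c n * (1 / Real.log n)| ≤
      (2 * C + 1) * (1 / Real.log ((w + 1 : ℕ) : ℝ)) := by
    rw [abs_mul, abs_of_pos hCpos]
    gcongr
  rw [e4]
  have hz' : 0 ≤ 1 / (z : ℝ) := by positivity
  have e6 : 6 / (w : ℝ) = 6 * (1 / (w : ℝ)) := by ring
  have hw0 : 0 ≤ 1 / (w : ℝ) := by positivity
  rw [abs_le] at h5 ⊢
  constructor
  · linarith [h5.1, hls.2]
  · linarith [h5.2, hls.1]

theorem PP_mono : Monotone PP := by
  intro a b hab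
  apply Finset.sum_le_sum_of_subset_of_nonneg
  · intro p hp
    simp only [Finset.mem_filter, Finset.mem_Ioc] at hp ⊢
    exact ⟨⟨hp.1.1, hp.1.2.trans hab⟩, hp.2⟩
  · intro p _ _; positivity

theorem PP_nonneg (N : ℕ) : 0 ≤ PP N := by
  unfold PP; positivity

theorem PP_sub {w z : ℕ} (hwz : w ≤ z) :
    PP z - PP w = ∑ n ∈ Ioc w z, (if n.Prime then (1 : ℝ) else 0) / n := by
  unfold PP
  rw [Finset.sum_filter, Finset.sum_filter]
  have h : Ioc 0 z = Ioc 0 w ∪ Ioc w z := by
    ext x; simp only [Finset.mem_Ioc, Finset.mem_union]; omega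
  have hd : Disjoint (Ioc 0 w) (Ioc w z) := by
    rw [Finset.disjoint_left]; intro x; simp only [Finset.mem_Ioc]; omega
  rw [h, Finset.sum_union hd, add_sub_cancel_left]
  refine Finset.sum_congr rfl fun n _ => ?_
  split_ifs <;> simp

theorem exists_M : ∃ M : ℝ, Tendsto (fun N : ℕ => PP N - Real.log (Real.log N)) atTop (𝓝 M) := by
  obtain ⟨C, hC⟩ := mertens_one
  have hC0 : 0 ≤ C := (abs_nonneg _).trans (hC 1 one_pos)
  have hb : ∀ w z : ℕ, 2 ≤ w → w ≤ z →
      |(PP z - Real.log (Real.log z)) - (PP w - Real.log (Real.log w))| ≤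
        (2 * C + 1) * (1 / Real.log ((w + 1 : ℕ) : ℝ)) + 6 / w := by
    intro w z hw hwz
    have h := psum' (fun n => if n.Prime then 1 else 0) C hC0 (fun N hN => ?_) w z hw hwz
    · rw [← PP_sub hwz] at h
      convert h using 2
      ring
    · have h := hC N hN
      rw [Finset.sum_filter] at h
      convert h using 3
      refine Finset.sum_congr rfl fun n _ => ?_
      split_ifs <;> simp
  have hlim : Tendsto (fun w : ℕ => (2 * C + 1) * (1 / Real.log ((w + 1 : ℕ) : ℝ)) + 6 / w) atTop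
      (𝓝 0) := by
    have h1 : Tendsto (fun w : ℕ => Real.log ((w + 1 : ℕ) : ℝ)) atTop atTop :=
      Real.tendsto_log_atTop.comp (tendsto_natCast_atTop_atTop.comp (tendsto_add_atTop_nat 1))
    have h2 : Tendsto (fun w : ℕ => 6 / (w : ℝ)) atTop (𝓝 0) :=
      tendsto_const_nhds.div_atTop tendsto_natCast_atTop_atTop
    have h3 : Tendsto (fun w : ℕ => 1 / Real.log ((w + 1 : ℕ) : ℝ)) atTop (𝓝 0) :=
      tendsto_const_nhds.div_atTop h1
    simpa using (h3.const_mul (2 * C + 1)).add h2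
  have hcau : CauchySeq (fun N : ℕ => PP N - Real.log (Real.log N)) := by
    rw [Metric.cauchySeq_iff']
    intro ε hε
    obtain ⟨w, hw2, hw⟩ := ((eventually_ge_atTop 2).and (hlim.eventually (gt_mem_nhds hε))).exists
    refine ⟨w, fun z hz => ?_⟩
    rw [Real.dist_eq]
    exact lt_of_le_of_lt (hb w z hw2 hz) hw
  exact cauchySeq_tendsto_of_complete hcau

end Pool.Agent.Work.MP_73869e_nt.M3
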