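import Mathlib
import Pool.Agent.Work.MP_2dba45_nt.Mert

set_option autoImplicit false

open Filter Finset

namespace Pool.Agent.Work.MP_73869e_nt

/-- decrement of `log n / n` -/
theorem logdiv_decr (n : ℕ) (hn : 1 ≤ n) :
    (Real.log n - 1) / (n * (n + 1)) ≤ Real.log n / n - Real.log ((n : ℝ) + 1) / (n + 1) := by
  have hn0 : (0 : ℝ) < n := by exact_mod_cast hn
  have h1 : Real.log ((n : ℝ) + 1) ≤ Real.log n + 1 / n := by
    have h2 : Real.log (((n : ℝ) + 1) / n) ≤ ((n : ℝ) + 1) / n - 1 :=
      Real.log_le_sub_one_of_pos (by positivity)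
    rw [Real.log_div (by positivity) (by positivity)] at h2
    have h3 : ((n : ℝ) + 1) / n - 1 = 1 / n := by field_simp; ring
    linarith
  rw [div_sub_div _ _ (by positivity) (by positivity)]
  apply div_le_div_of_nonneg_right _ (by positivity)
  have h4 : (n : ℝ) * Real.log ((n : ℝ) + 1) ≤ n * (Real.log n + 1 / n) :=
    mul_le_mul_of_nonneg_left h1 hn0.le
  have h5 : (n : ℝ) * (1 / n) = 1 := by field_simp
  nlinarith

theorem inv_ge_log (n : ℕ) : Real.log ((n : ℝ) + 2) - Real.log ((n : ℝ) + 1) ≤ 1 / ((n : ℝ) + 1) := by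
  have h2 : Real.log (((n : ℝ) + 2) / (n + 1)) ≤ ((n : ℝ) + 2) / (n + 1) - 1 :=
    Real.log_le_sub_one_of_pos (by positivity)
  rw [Real.log_div (by positivity) (by positivity)] at h2
  have h3 : ((n : ℝ) + 2) / (n + 1) - 1 = 1 / ((n : ℝ) + 1) := by field_simp; ring
  linarith

theorem exists_pi_small {δ : ℝ} (hδ : 0 < δ) (X : ℕ) :
    ∃ x : ℕ, X ≤ x ∧ (Nat.primeCounting x : ℝ) ≤ (1 + δ) * x / Real.log x := by
  by_contra hcon
  push Not at hcon
  obtain ⟨C, hC⟩ := Pool.Agent.Work.MP_2dba45_nt.Mert.mertens_one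
  set f : ℕ → ℝ := fun n => Real.log n / n with hf
  set S : ℕ → ℝ := fun N => ∑ p ∈ (Ioc 0 N).filter Nat.Prime, Real.log p / p with hS
  set n1 : ℕ := max X (max 3 ⌈Real.exp (2 * (1 + δ) / δ)⌉₊) with hn1
  have hn1X : X ≤ n1 := le_max_left _ _
  have hn13 : 3 ≤ n1 := (le_max_left _ _).trans (le_max_right _ _)
  have hlog : ∀ n : ℕ, n1 ≤ n → 2 * (1 + δ) / δ ≤ Real.log n := by
    intro n hn
    have h1 : ⌈Real.exp (2 * (1 + δ) / δ)⌉₊ ≤ n :=
      ((le_max_right _ _).trans (le_max_right _ _)).trans hn
    have h2 : Real.exp (2 * (1 + δ) / δ) ≤ n := (Nat.ceil_le.1 h1)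
    rw [Real.le_log_iff_exp_le]
    · exact h2
    · have : 0 < n := by omega
      exact_mod_cast this
  have key : ∀ N : ℕ, n1 ≤ N → S n1 - (Nat.primeCounting n1 : ℝ) * f n1 -
      (1 + δ / 2) * Real.log ((n1 : ℝ) + 1) + (1 + δ / 2) * Real.log ((N : ℝ) + 1)
        ≤ S N - (Nat.primeCounting N : ℝ) * f N := by
    intro N hN
    induction N, hN using Nat.le_induction with
    | base => linarith
    | succ N hN ih =>
      have hNpos : 0 < N := by omega
      have hN0 : (0 : ℝ) < N := by exact_mod_cast hNpos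
      have hstep : S (N + 1) - (Nat.primeCounting (N + 1) : ℝ) * f (N + 1)
          = S N - (Nat.primeCounting N : ℝ) * f (N + 1) := by
        have hpc : Nat.primeCounting (N + 1) = Nat.primeCounting N + if (N + 1).Prime then 1 else 0 := by
          rw [Nat.primeCounting, Nat.primeCounting', Nat.count_succ]
          rfl
        have hSs : S (N + 1) = S N + if (N + 1).Prime then f (N + 1) else 0 := by
          simp only [hS, hf]
          rw [sum_filter, sum_filter, ← Finset.insert_Ioc_right_eq_Ioc_add_one (by omega : 0 ≤ N),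
            sum_insert (by simp)]
          rw [add_comm]
        rw [hSs, hpc]
        by_cases hp : (N + 1).Prime
        · rw [if_pos hp, if_pos hp]
          push_cast
          ring
        · rw [if_neg hp, if_neg hp]
          push_cast
          ring
      rw [hstep]
      have hl := hlog N hN
      have hlpos : 0 < Real.log N := lt_of_lt_of_le (by positivity) hl
      have hpi : (1 + δ) * N / Real.log N ≤ (Nat.primeCounting N : ℝ) :=
        (hcon N (hn1X.trans hN)).le
      have hd := logdiv_decr N (by omega)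
      have hl1 : 0 ≤ Real.log N - 1 := by
        have : (1 : ℝ) ≤ 2 * (1 + δ) / δ := by
          rw [le_div_iff₀ hδ]
          linarith
        linarith
      have h1 : (1 + δ / 2) / ((N : ℝ) + 1) ≤ (Nat.primeCounting N : ℝ) * (f N - f (N + 1)) := by
        have h2 : (1 + δ) * N / Real.log N * ((Real.log N - 1) / (N * (N + 1)))
            ≤ (Nat.primeCounting N : ℝ) * (f N - f (N + 1)) := by
          have h3 : f N - f (N + 1) = Real.log N / N - Real.log ((N : ℝ) + 1) / (N + 1) := by
            simp only [hf]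
            push_cast
            rfl
          rw [h3]
          have h4 : 0 ≤ (Real.log N - 1) / ((N : ℝ) * (N + 1)) := by positivity
          have h5 : 0 ≤ (Nat.primeCounting N : ℝ) := Nat.cast_nonneg _
          exact mul_le_mul hpi hd h4 h5
        refine le_trans ?_ h2
        have h6 : (1 + δ) * N / Real.log N * ((Real.log N - 1) / (N * (N + 1)))
            = ((1 + δ) * (Real.log N - 1) / Real.log N) / (N + 1) := by
          field_simp
        rw [h6]
        apply div_le_div_of_nonneg_right _ (by positivity)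
        rw [le_div_iff₀ hlpos]
        have h7 : 2 * (1 + δ) ≤ Real.log N * δ := by
          rwa [div_le_iff₀ hδ] at hl
        nlinarith
      have h8 := inv_ge_log N
      have h9 : (1 + δ / 2) * (Real.log ((N : ℝ) + 2) - Real.log ((N : ℝ) + 1)) ≤ (1 + δ / 2) / ((N : ℝ) + 1) := by
        rw [div_eq_mul_one_div (1 + δ / 2)]
        exact mul_le_mul_of_nonneg_left h8 (by positivity)
      have h10 : (((N + 1 : ℕ) : ℝ) + 1) = (N : ℝ) + 2 := by
        push_cast
        ring
      rw [h10]
      nlinarith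
  set A := S n1 - (Nat.primeCounting n1 : ℝ) * f n1 - (1 + δ / 2) * Real.log ((n1 : ℝ) + 1) with hA
  obtain ⟨N, hN⟩ := exists_nat_gt (max (n1 : ℝ) (Real.exp (2 * (C - A) / δ)))
  have hNn1 : n1 ≤ N := by
    have : (n1 : ℝ) < N := lt_of_le_of_lt (le_max_left _ _) hN
    exact_mod_cast this.le
  have hNpos : 0 < N := by omega
  have hN0 : (0 : ℝ) < N := by exact_mod_cast hNpos
  have h1 := key N hNn1
  have h2 := (abs_le.1 (hC N hNpos)).2
  have h3 : 2 * (C - A) / δ < Real.log N := by
    rw [Real.lt_log_iff_exp_lt hN0]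
    exact lt_of_le_of_lt (le_max_right _ _) hN
  have h4 : 0 ≤ (Nat.primeCounting N : ℝ) * f N := by
    apply mul_nonneg (Nat.cast_nonneg _)
    simp only [hf]
    apply div_nonneg _ hN0.le
    apply Real.log_nonneg
    exact_mod_cast hNpos
  have h5 : Real.log N ≤ Real.log ((N : ℝ) + 1) := Real.log_le_log hN0 (by linarith)
  have h6 : 2 * (C - A) < Real.log N * δ := by
    rwa [div_lt_iff₀ hδ] at h3
  have h7 : S N - Real.log N ≤ C := h2
  have h8 : (1 + δ / 2) * Real.log N ≤ (1 + δ / 2) * Real.log ((N : ℝ) + 1) :=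
    mul_le_mul_of_nonneg_left h5 (by positivity)
  nlinarith

end Pool.Agent.Work.MP_73869e_nt
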