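import Pool.Agent.Work.MP_73869e_nt.Defs

set_option autoImplicit false

/-!
# Rough numbers below `T ^ 3`
-/

open MeasureTheory ProbabilityTheory Filter

namespace Pool.Agent.Work.MP_73869e_nt

theorem card_primes_le (n : ℕ) :
    ((Finset.range (n + 1)).filter Nat.Prime).card = Nat.primeCounting n := by
  rw [Nat.primeCounting, Nat.primeCounting', Nat.count_eq_card_filter_range]

theorem rough_cases {h T j : ℕ} (hj1 : 1 ≤ j) (hjh : j ≤ h) (hhT : h < T ^ 3)
    (hr : ∀ p ≤ T, p.Prime → ¬ p ∣ j) :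
    j = 1 ∨ j.Prime ∨ ∃ p q, p.Prime ∧ q.Prime ∧ p ≤ h / T ∧ q ≤ h / T ∧ j = p * q := by
  have hbig : ∀ p, p.Prime → p ∣ j → T < p := by
    intro p hp hd
    by_contra hcon
    exact hr p (by omega) hp hd
  rcases eq_or_ne j 1 with h1 | h1
  · exact Or.inl h1
  by_cases hjp : j.Prime
  · exact Or.inr (Or.inl hjp)
  right; right
  obtain ⟨k, hk⟩ := Nat.minFac_dvd j
  set p := j.minFac with hp
  have hpp : p.Prime := Nat.minFac_prime h1
  have hk1 : k ≠ 1 := by
    rintro rfl
    rw [mul_one] at hk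
    exact hjp (hk ▸ hpp)
  have hk0 : k ≠ 0 := by
    rintro rfl
    omega
  obtain ⟨l, hl⟩ := Nat.minFac_dvd k
  set q := k.minFac with hq
  have hqp : q.Prime := Nat.minFac_prime hk1
  have hl0 : l ≠ 0 := by
    rintro rfl
    omega
  have hpT : T < p := hbig p hpp ⟨k, hk⟩
  have hqT : T < q := hbig q hqp (by rw [hk, hl]; exact ⟨p * l, by ring⟩)
  have hl1 : l = 1 := by
    by_contra hne
    have hrp := Nat.minFac_prime hne
    have hrT : T < l.minFac := hbig _ hrp
      ((Nat.minFac_dvd l).trans (by rw [hk, hl]; exact ⟨p * q, by ring⟩))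
    have hlT : T < l := lt_of_lt_of_le hrT (Nat.minFac_le (Nat.pos_of_ne_zero hl0))
    have h2 : T ^ 3 ≤ p * (q * l) := by
      calc T ^ 3 = T * (T * T) := by ring
        _ ≤ p * (q * l) := Nat.mul_le_mul hpT.le (Nat.mul_le_mul hqT.le hlT.le)
    rw [← hl, ← hk] at h2
    omega
  rw [hl1, mul_one] at hl
  rw [hl] at hk
  have hT0 : 0 < T := by
    rcases Nat.eq_zero_or_pos T with h0 | h0
    · subst h0; simp at hhT
    · exact h0
  refine ⟨p, q, hpp, hqp, ?_, ?_, hk⟩
  · rw [Nat.le_div_iff_mul_le hT0]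
    calc p * T ≤ p * q := Nat.mul_le_mul_left _ hqT.le
      _ = j := hk.symm
      _ ≤ h := hjh
  · rw [Nat.le_div_iff_mul_le hT0]
    calc q * T ≤ q * p := Nat.mul_le_mul_left _ hpT.le
      _ = j := by rw [hk]; ring
      _ ≤ h := hjh

theorem rough_card (h T : ℕ) (hT : 1 ≤ T) (hhT : h < T ^ 3) :
    ((Finset.Icc 1 h).filter (fun j => ∀ p ≤ T, p.Prime → ¬ p ∣ j)).card
      ≤ 1 + Nat.primeCounting h + (Nat.primeCounting (h / T)) ^ 2 := by
  have hsub : (Finset.Icc 1 h).filter (fun j => ∀ p ≤ T, p.Prime → ¬ p ∣ j) ⊆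
      ({1} ∪ (Finset.range (h + 1)).filter Nat.Prime) ∪
        (((Finset.range (h / T + 1)).filter Nat.Prime) ×ˢ
          ((Finset.range (h / T + 1)).filter Nat.Prime)).image (fun z => z.1 * z.2) := by
    intro j hj
    obtain ⟨h1, h2⟩ := Finset.mem_filter.mp hj
    obtain ⟨h3, h4⟩ := Finset.mem_Icc.mp h1
    simp only [Finset.mem_union, Finset.mem_singleton, Finset.mem_filter, Finset.mem_range,
      Finset.mem_image, Finset.mem_product]
    rcases rough_cases h3 h4 hhT h2 with h5 | h5 | ⟨p, q, hp, hq, hpl, hql, hpq⟩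
    · exact Or.inl (Or.inl h5)
    · exact Or.inl (Or.inr ⟨by omega, h5⟩)
    · exact Or.inr ⟨(p, q), ⟨⟨by omega, hp⟩, ⟨by omega, hq⟩⟩, hpq.symm⟩
  calc _ ≤ _ := Finset.card_le_card hsub
    _ ≤ ({1} ∪ (Finset.range (h + 1)).filter Nat.Prime).card +
        ((((Finset.range (h / T + 1)).filter Nat.Prime) ×ˢ
          ((Finset.range (h / T + 1)).filter Nat.Prime)).image (fun z => z.1 * z.2)).card :=
      Finset.card_union_le _ _
    _ ≤ (1 + Nat.primeCounting h) + (Nat.primeCounting (h / T)) ^ 2 := by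
      refine Nat.add_le_add ?_ ?_
      · refine (Finset.card_union_le _ _).trans ?_
        rw [card_primes_le, Finset.card_singleton]
      · refine Finset.card_image_le.trans ?_
        rw [Finset.card_product, card_primes_le, sq]

end Pool.Agent.Work.MP_73869e_nt
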