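import Pool.Agent.Work.MP_73869e_nt.Defs

set_option autoImplicit false

open MeasureTheory ProbabilityTheory Filter

namespace Pool.Agent.Work.MP_73869e_nt

/-- the `T`-rough integers in `[1, h]` -/
def rough (h T : ℕ) : Finset ℕ :=
  (Finset.Icc 1 h).filter (fun j => ∀ p ≤ T, p.Prime → ¬ p ∣ j)

theorem exp_lower {ρ : ℝ} (h0 : 0 ≤ ρ) (h1 : ρ ≤ 1 / 2) (S : ℕ) :
    Real.exp (-((ρ + ρ ^ 2) * S)) ≤ (1 - ρ) ^ S := by
  have h2 : Real.exp (-(ρ + ρ ^ 2)) ≤ 1 - ρ := by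
    have h3 : 0 < 1 - ρ := by linarith
    rw [← Real.exp_log h3]
    apply Real.exp_le_exp.2
    have h4 : Real.log (1 / (1 - ρ)) ≤ ρ + ρ ^ 2 := by
      have h7 : 1 / (1 - ρ) ≤ Real.exp (ρ + ρ ^ 2) := by
        rw [div_le_iff₀ h3]
        have h8 : 1 + (ρ + ρ ^ 2) + (ρ + ρ ^ 2) ^ 2 / 2 ≤ Real.exp (ρ + ρ ^ 2) :=
          Real.quadratic_le_exp_of_nonneg (by positivity)
        nlinarith [mul_nonneg h0 h0, mul_nonneg (mul_nonneg h0 h0) (by linarith : (0:ℝ) ≤ 1/2 - ρ),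
          mul_nonneg (mul_nonneg h0 (mul_nonneg h0 h0)) (by linarith : (0:ℝ) ≤ 1/2 - ρ),
          mul_nonneg (mul_nonneg (mul_nonneg h0 h0) (mul_nonneg h0 h0)) (by linarith : (0:ℝ) ≤ 1/2 - ρ),
          mul_le_mul_of_nonneg_right h8 h3.le]
      calc Real.log (1 / (1 - ρ)) ≤ Real.log (Real.exp (ρ + ρ ^ 2)) :=
            Real.log_le_log (by positivity) h7
        _ = ρ + ρ ^ 2 := Real.log_exp _
    rw [Real.log_div (by norm_num) h3.ne', Real.log_one] at h4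
    linarith
  calc Real.exp (-((ρ + ρ ^ 2) * S)) = (Real.exp (-(ρ + ρ ^ 2))) ^ S := by
        rw [← Real.exp_nat_mul]; congr 1; ring
    _ ≤ (1 - ρ) ^ S := by
        apply pow_le_pow_left₀ (Real.exp_pos _).le h2

end Pool.Agent.Work.MP_73869e_nt
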