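import Pool.Agent.Work.MP_73869e_nt.C4a

set_option autoImplicit false

open MeasureTheory ProbabilityTheory Filter Topology

namespace Pool.Agent.Work.MP_73869e_nt


theorem mert_pos (y : ℝ) : 0 < mert y := by
  unfold mert
  apply Finset.prod_pos
  intro p hp
  have h2 : 2 ≤ p := (Finset.mem_filter.1 hp).2.two_le
  have h3 : (2 : ℝ) ≤ p := by exact_mod_cast h2
  have : 1 / (p : ℝ) ≤ 1 / 2 := by
    apply one_div_le_one_div_of_le (by norm_num) h3
  linarith

theorem mert_anti {y z : ℝ} (h : y ≤ z) : mert z ≤ mert y := by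
  unfold mert
  have hsub : (Finset.Icc 1 ⌊y⌋₊).filter Nat.Prime ⊆ (Finset.Icc 1 ⌊z⌋₊).filter Nat.Prime := by
    apply Finset.filter_subset_filter
    exact Finset.Icc_subset_Icc le_rfl (Nat.floor_le_floor h)
  rw [← Finset.prod_sdiff hsub]
  have h1 : ∏ p ∈ (Finset.Icc 1 ⌊z⌋₊).filter Nat.Prime \ (Finset.Icc 1 ⌊y⌋₊).filter Nat.Prime,
      (1 - 1 / (p : ℝ)) ≤ 1 := by
    apply Finset.prod_le_one
    · intro p hp
      have h2 : 2 ≤ p := (Finset.mem_filter.1 (Finset.mem_sdiff.1 hp).1).2.two_le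
      have h3 : (2 : ℝ) ≤ p := by exact_mod_cast h2
      have : 1 / (p : ℝ) ≤ 1 / 2 := one_div_le_one_div_of_le (by norm_num) h3
      linarith
    · intro p hp
      have : 0 ≤ 1 / (p : ℝ) := by positivity
      linarith
  have h2 := mert_pos y
  unfold mert at h2
  calc _ ≤ 1 * ∏ x ∈ (Finset.Icc 1 ⌊y⌋₊).filter Nat.Prime, (1 - 1 / (x : ℝ)) :=
        mul_le_mul_of_nonneg_right h1 h2.le
    _ = _ := one_mul _

/-- the multiples of `P` in `(N/2, N]` -/
def mults (N P : ℕ) : Finset ℕ := (Finset.Ioc (N / P / 2) (N / P)).image (fun k => P * k)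

theorem mults_card (N P : ℕ) (hP : 0 < P) : (mults N P).card = N / P - N / P / 2 := by
  unfold mults
  rw [Finset.card_image_of_injective _ (fun a b h => by
    exact Nat.eq_of_mul_eq_mul_left hP h)]
  simp

theorem mem_mults {N P n : ℕ} (hP : 0 < P) (h : n ∈ mults N P) :
    P ∣ n ∧ n ≤ N ∧ N < 2 * n := by
  unfold mults at h
  rw [Finset.mem_image] at h
  obtain ⟨k, hk, rfl⟩ := h
  rw [Finset.mem_Ioc] at hk
  refine ⟨Dvd.intro k rfl, ?_, ?_⟩
  · calc P * k ≤ P * (N / P) := Nat.mul_le_mul_left _ hk.2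
      _ ≤ N := Nat.mul_div_le N P
  · have h1 : N / P + 1 ≤ 2 * k := by omega
    calc N < P * (N / P + 1) := by
          exact Nat.lt_mul_div_succ N hP
      _ ≤ P * (2 * k) := Nat.mul_le_mul_left _ h1
      _ = 2 * (P * k) := by ring

theorem mults_card_lower (N P : ℕ) (hP : 0 < P) :
    (N : ℝ) / (2 * P) - 1 / 2 ≤ ((mults N P).card : ℝ) := by
  rw [mults_card N P hP]
  have h1 : (N / P : ℕ) ≤ 2 * (N / P - N / P / 2) := by omega
  have h2 : (N : ℝ) / P - 1 ≤ ((N / P : ℕ) : ℝ) := by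
    have := Nat.lt_mul_div_succ N hP
    have h3 : (N : ℝ) < P * (((N / P : ℕ) : ℝ) + 1) := by exact_mod_cast this
    have hP' : (0 : ℝ) < P := by exact_mod_cast hP
    rw [sub_le_iff_le_add, div_le_iff₀ hP']
    nlinarith
  have h3 : (((N / P : ℕ) : ℕ) : ℝ) ≤ 2 * ((N / P - N / P / 2 : ℕ) : ℝ) := by exact_mod_cast h1
  have h4 : (N : ℝ) / (2 * P) = (N : ℝ) / P / 2 := by
    rw [div_div, mul_comm]
  rw [h4]
  linarith

end Pool.Agent.Work.MP_73869e_nt
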