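import Mathlib

set_option autoImplicit false

open MeasureTheory ProbabilityTheory Filter

namespace Pool.Agent.Work.MP_73869e_nt

/-- the integers `m` with `n² < m ≤ n² + c (log n)²` -/
noncomputable def win (c : ℝ) (n : ℕ) : Finset ℕ :=
  Finset.Ioc (n ^ 2) (n ^ 2 + ⌊c * (Real.log n) ^ 2⌋₊)

/-- the Mertens product `∏_{p ≤ y} (1 - 1/p)` -/
noncomputable def mert (y : ℝ) : ℝ :=
  ∏ p ∈ (Finset.Icc 1 ⌊y⌋₊).filter Nat.Prime, (1 - 1 / (p : ℝ))

/-- Cramér's density -/
noncomputable def cram (m : ℕ) : ℝ := 1 / Real.log m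

/-- Granville's density with the sieving level `z m` at `m` -/
noncomputable def granz (z : ℕ → ℝ) (m : ℕ) : ℝ :=
  open Classical in
  if ∃ p : ℕ, p.Prime ∧ (p : ℝ) ≤ z m ∧ p ∣ m then 0
  else 1 / (mert (z m) * Real.log m)

/-- `z m = (log m)^(1+o(1))` -/
def LogLike (z : ℕ → ℝ) : Prop :=
  ∀ δ : ℝ, 0 < δ → ∀ᶠ m : ℕ in atTop,
    (Real.log m) ^ (1 - δ) ≤ z m ∧ z m ≤ (Real.log m) ^ (1 + δ)

/-- a random set of integers: the events `A m` (meaning that `m` is in the random set) are independent and,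
for all large `m`, have probability `d m` -/
structure IsModel {Ω : Type*} [MeasurableSpace Ω] (μ : Measure Ω) (A : ℕ → Set Ω) (d : ℕ → ℝ) :
    Prop where
  meas : ∀ m, MeasurableSet (A m)
  indep : iIndepSet A μ
  prob : ∀ᶠ m in atTop, μ (A m) = ENNReal.ofReal (d m)

end Pool.Agent.Work.MP_73869e_nt
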