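import Mathlib
import Pool.Agent.Work.MP_73869e_nt.Defs

set_option autoImplicit false

open MeasureTheory ProbabilityTheory Filter

namespace Pool.Agent.Work.MP_73869e_nt

theorem win_large (c : ℝ) (M : ℕ) : ∀ᶠ n in atTop, ∀ m ∈ win c n, M ≤ m := by
  filter_upwards [eventually_ge_atTop M] with n hn m hm
  unfold win at hm
  rw [Finset.mem_Ioc] at hm
  have : n ≤ n ^ 2 := Nat.le_self_pow (by norm_num) n
  omega

/-- `c (log n)^2 ≤ n` for large `n` -/
theorem log_sq_small (c : ℝ) : ∀ᶠ n : ℕ in atTop, c * (Real.log n) ^ 2 ≤ n := by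
  have h1 := (Real.isLittleO_pow_log_id_atTop (n := 2)).def (c := 1 / (|c| + 1)) (by positivity)
  have h2 := tendsto_natCast_atTop_atTop.eventually h1 (β := ℝ)
  filter_upwards [h2] with n hn
  simp only [id, Real.norm_eq_abs] at hn
  have hna : |(n : ℝ)| = n := abs_of_nonneg (Nat.cast_nonneg _)
  rw [abs_of_nonneg (sq_nonneg _), hna] at hn
  have h3 : c * (Real.log n) ^ 2 ≤ (|c| + 1) * (Real.log n) ^ 2 :=
    mul_le_mul_of_nonneg_right ((le_abs_self c).trans (by linarith)) (sq_nonneg _)
  have h4 : (|c| + 1) * (Real.log n) ^ 2 ≤ (|c| + 1) * (1 / (|c| + 1) * n) :=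
    mul_le_mul_of_nonneg_left hn (by positivity)
  have h5 : (|c| + 1) * (1 / (|c| + 1) * (n : ℝ)) = n := by
    have : |c| + 1 ≠ 0 := by positivity
    field_simp
  linarith

theorem floor_small (c : ℝ) : ∀ᶠ n : ℕ in atTop, ⌊c * (Real.log n) ^ 2⌋₊ ≤ n := by
  filter_upwards [log_sq_small c] with n hn
  exact Nat.floor_le_of_le hn

theorem win_disjoint (c : ℝ) :
    ∃ N0 : ℕ, ∀ n n', N0 ≤ n → n < n' → Disjoint (win c n) (win c n') := by
  obtain ⟨N0, hN0⟩ := eventually_atTop.1 (floor_small c)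
  refine ⟨N0, fun n n' hn hn' => ?_⟩
  have h1 := hN0 n hn
  rw [Finset.disjoint_left]
  intro m hm hm'
  unfold win at hm hm'
  rw [Finset.mem_Ioc] at hm hm'
  nlinarith

theorem mem_win {c : ℝ} (hc : 0 ≤ c) (n m : ℕ) :
    m ∈ win c n ↔ n ^ 2 < m ∧ (m : ℝ) ≤ (n : ℝ) ^ 2 + c * (Real.log n) ^ 2 := by
  unfold win
  rw [Finset.mem_Ioc]
  refine and_congr_right (fun h => ?_)
  obtain ⟨k, rfl⟩ := Nat.exists_eq_add_of_lt h
  have h0 : 0 ≤ c * (Real.log n) ^ 2 := by positivity
  constructor
  · intro h1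
    have h2 : k + 1 ≤ ⌊c * (Real.log n) ^ 2⌋₊ := by omega
    rw [Nat.le_floor_iff h0] at h2
    push_cast at h2 ⊢
    linarith
  · intro h1
    have h2 : k + 1 ≤ ⌊c * (Real.log n) ^ 2⌋₊ := by
      rw [Nat.le_floor_iff h0]
      push_cast at h1 ⊢
      linarith
    omega

/-! ### Cramér's model -/

theorem cram_summable {c : ℝ} (hc : 2 < c) :
    Summable (fun n => ∏ m ∈ win c n, (1 - cram m)) := by
  -- an exponent strictly between 1 and c / 2
  set s : ℝ := (1 + c / 2) / 2 with hs
  have hs1 : 1 < s := by rw [hs]; linarith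
  have hsc : 2 * s < c := by rw [hs]; linarith
  have hlogtop : Tendsto (fun n : ℕ => Real.log n) atTop atTop :=
    Real.tendsto_log_atTop.comp tendsto_natCast_atTop_atTop
  have hbig : ∀ᶠ n : ℕ in atTop, (2 * s + 1) / (c - 2 * s) + 1 ≤ Real.log n :=
    hlogtop.eventually_ge_atTop _
  refine Summable.of_norm_bounded_eventually_nat (g := fun n : ℕ => 1 / (n : ℝ) ^ s)
    (Real.summable_one_div_nat_rpow.2 hs1) ?_
  filter_upwards [hbig, floor_small c, eventually_ge_atTop 3] with n hn hfl hn3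
  have hn0 : (0 : ℝ) < n := by
    have : 0 < n := by omega
    exact_mod_cast this
  set L := Real.log n with hL
  have hcs : 0 < c - 2 * s := by linarith
  have hL1 : 1 < L := by
    have : 0 < (2 * s + 1) / (c - 2 * s) := by positivity
    linarith
  set L1 := Real.log ((n : ℝ) + 1) with hL1d
  have hL1L : L1 ≤ L + 1 := by
    have h2 : Real.log (((n : ℝ) + 1) / n) ≤ ((n : ℝ) + 1) / n - 1 :=
      Real.log_le_sub_one_of_pos (by positivity)
    rw [Real.log_div (by positivity) (by positivity)] at h2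
    have h3 : ((n : ℝ) + 1) / n - 1 = 1 / n := by field_simp; ring
    have h4 : 1 / (n : ℝ) ≤ 1 := by
      rw [div_le_one hn0]
      have : 1 ≤ n := by omega
      exact_mod_cast this
    linarith
  have hL1pos : 0 < L1 := by
    have : L ≤ L1 := Real.log_le_log hn0 (by linarith)
    linarith
  -- each factor
  have hfac : ∀ m ∈ win c n, 0 ≤ 1 - cram m ∧ 1 - cram m ≤ Real.exp (-(1 / (2 * L1))) := by
    intro m hm
    unfold win at hm
    rw [Finset.mem_Ioc] at hm
    have hmn : n ≤ m := by nlinarith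
    have hm0 : (0 : ℝ) < m := by
      have : 0 < m := by omega
      exact_mod_cast this
    have hm1 : m ≤ (n + 1) ^ 2 := by nlinarith
    have hlm : Real.log m ≤ 2 * L1 := by
      have h1 : Real.log m ≤ Real.log (((n : ℝ) + 1) ^ 2) := by
        apply Real.log_le_log hm0
        exact_mod_cast hm1
      rw [Real.log_pow] at h1
      push_cast at h1
      exact h1
    have hlm2 : L ≤ Real.log m := by
      apply Real.log_le_log hn0
      exact_mod_cast hmn
    have hlmpos : 0 < Real.log m := by linarith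
    unfold cram
    constructor
    · have : 1 / Real.log m ≤ 1 := by
        rw [div_le_one hlmpos]
        linarith
      linarith
    · have h1 : 1 / (2 * L1) ≤ 1 / Real.log m := one_div_le_one_div_of_le hlmpos hlm
      have h2 := Real.add_one_le_exp (-(1 / (2 * L1)))
      linarith
  have hprod0 : 0 ≤ ∏ m ∈ win c n, (1 - cram m) := Finset.prod_nonneg (fun m hm => (hfac m hm).1)
  rw [Real.norm_eq_abs, abs_of_nonneg hprod0]
  have hcard : (win c n).card = ⌊c * L ^ 2⌋₊ := by
    unfold win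
    rw [Nat.card_Ioc]
    simp only [hL]
    omega
  have hle : ∏ m ∈ win c n, (1 - cram m) ≤ (Real.exp (-(1 / (2 * L1)))) ^ ⌊c * L ^ 2⌋₊ := by
    rw [← hcard, ← Finset.prod_const]
    exact Finset.prod_le_prod (fun m hm => (hfac m hm).1) (fun m hm => (hfac m hm).2)
  refine hle.trans ?_
  rw [← Real.exp_nat_mul]
  have hrhs : 1 / (n : ℝ) ^ s = Real.exp (-(s * L)) := by
    rw [Real.rpow_def_of_pos hn0, Real.exp_neg, one_div, hL, mul_comm s]
  rw [hrhs]
  apply Real.exp_le_exp.2
  have hfloor : c * L ^ 2 - 1 < ⌊c * L ^ 2⌋₊ := Nat.sub_one_lt_floor _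
  have hmain : s * L ≤ (⌊c * L ^ 2⌋₊ : ℝ) * (1 / (2 * L1)) := by
    rw [mul_one_div, le_div_iff₀ (by positivity)]
    have h1 : s * L * (2 * L1) ≤ s * L * (2 * (L + 1)) := by
      apply mul_le_mul_of_nonneg_left _ (by positivity)
      linarith
    have h2 : (2 * s + 1) ≤ (L - 1) * (c - 2 * s) := by
      rw [← div_le_iff₀ hcs]
      linarith
    have h3 : s * L * (2 * (L + 1)) ≤ c * L ^ 2 - 1 := by
      have h4 : (2 * s + 1) * L ≤ ((L - 1) * (c - 2 * s)) * L :=
        mul_le_mul_of_nonneg_right h2 (by linarith)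
      nlinarith
    linarith
  linarith

/-- lower bound for the products in the critical case -/
theorem cram_lower : ∀ᶠ n : ℕ in atTop, Real.exp (-1) * (1 / (n : ℝ)) ≤ ∏ m ∈ win 2 n, (1 - cram m) := by
  have hlogtop : Tendsto (fun n : ℕ => Real.log n) atTop atTop :=
    Real.tendsto_log_atTop.comp tendsto_natCast_atTop_atTop
  filter_upwards [hlogtop.eventually_ge_atTop 1, eventually_ge_atTop 3] with n hn hn3
  have hn0 : (0 : ℝ) < n := by
    have : 0 < n := by omega
    exact_mod_cast this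
  set L := Real.log n with hL
  have hfac : ∀ m ∈ win 2 n, Real.exp (-(1 / (2 * L - 1))) ≤ 1 - cram m := by
    intro m hm
    unfold win at hm
    rw [Finset.mem_Ioc] at hm
    have hlm : 2 * L ≤ Real.log m := by
      have h1 : Real.log ((n : ℝ) ^ 2) ≤ Real.log m := by
        apply Real.log_le_log (by positivity)
        exact_mod_cast hm.1.le
      rw [Real.log_pow] at h1
      exact_mod_cast h1
    unfold cram
    have h1 : 1 / Real.log m ≤ 1 / (2 * L) := one_div_le_one_div_of_le (by linarith) hlm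
    have h2 : Real.exp (-(1 / (2 * L - 1))) ≤ 1 - 1 / (2 * L) := by
      have h3 : 0 < 1 - 1 / (2 * L) := by
        have : 1 / (2 * L) < 1 := by
          rw [div_lt_one (by linarith)]
          linarith
        linarith
      rw [← Real.le_log_iff_exp_le h3]
      have h4 := Real.one_sub_inv_le_log_of_pos h3
      refine le_trans (le_of_eq ?_) h4
      have h5 : 2 * L - 1 ≠ 0 := by linarith
      have h6 : (2 : ℝ) * L ≠ 0 := by linarith
      have h7 : 1 - 1 / (2 * L) = (2 * L - 1) / (2 * L) := by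
        field_simp
      rw [h7, inv_div]
      field_simp
      ring
    linarith
  have hcard : (win 2 n).card = ⌊2 * L ^ 2⌋₊ := by
    unfold win
    rw [Nat.card_Ioc]
    simp only [hL]
    omega
  have hle : (Real.exp (-(1 / (2 * L - 1)))) ^ ⌊2 * L ^ 2⌋₊ ≤ ∏ m ∈ win 2 n, (1 - cram m) := by
    rw [← hcard, ← Finset.prod_const]
    exact Finset.prod_le_prod (fun m _ => (Real.exp_pos _).le) hfac
  refine le_trans ?_ hle
  rw [← Real.exp_nat_mul]
  have hlhs : Real.exp (-1) * (1 / (n : ℝ)) = Real.exp (-1 + -L) := by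
    rw [Real.exp_add, Real.exp_neg L, hL, Real.exp_log hn0, one_div]
  rw [hlhs]
  apply Real.exp_le_exp.2
  have hfloor : (⌊2 * L ^ 2⌋₊ : ℝ) ≤ 2 * L ^ 2 := Nat.floor_le (by positivity)
  have h2L : 0 < 2 * L - 1 := by linarith
  have h1 : (⌊2 * L ^ 2⌋₊ : ℝ) * (1 / (2 * L - 1)) ≤ L + 1 := by
    rw [mul_one_div, div_le_iff₀ h2L]
    nlinarith
  linarith

theorem cram_not_summable {c : ℝ} (hc : c ≤ 2) :
    ¬ Summable (fun n => ∏ m ∈ win c n, (1 - cram m)) := by
  intro hsum
  have hlow : ∀ᶠ n : ℕ in atTop, Real.exp (-1) * (1 / (n : ℝ)) ≤ ∏ m ∈ win c n, (1 - cram m) := by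
    filter_upwards [cram_lower, eventually_ge_atTop 3] with n hn hn3
    refine hn.trans ?_
    have hsub : win c n ⊆ win 2 n := by
      unfold win
      apply Finset.Ioc_subset_Ioc_right
      apply Nat.add_le_add_left
      apply Nat.floor_le_floor
      exact mul_le_mul_of_nonneg_right hc (sq_nonneg _)
    have hfac : ∀ m ∈ win 2 n, 0 ≤ 1 - cram m ∧ 1 - cram m ≤ 1 := by
      intro m hm
      unfold win at hm
      rw [Finset.mem_Ioc] at hm
      have hm3 : 3 ≤ m := by nlinarith
      have hl : 1 ≤ Real.log m := by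
        rw [Real.le_log_iff_exp_le (by positivity)]
        have h1 : (3 : ℝ) ≤ m := by exact_mod_cast hm3
        have h2 := Real.exp_one_lt_d9
        linarith
      unfold cram
      have h3 : 1 / Real.log m ≤ 1 := by
        rw [div_le_one (by linarith)]
        exact hl
      have h4 : 0 ≤ 1 / Real.log m := by positivity
      constructor <;> linarith
    rw [← Finset.prod_sdiff hsub]
    have h1 : ∏ m ∈ win 2 n \ win c n, (1 - cram m) ≤ 1 :=
      Finset.prod_le_one (fun m hm => (hfac m (Finset.mem_sdiff.1 hm).1).1)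
        (fun m hm => (hfac m (Finset.mem_sdiff.1 hm).1).2)
    have h2 : 0 ≤ ∏ m ∈ win c n, (1 - cram m) :=
      Finset.prod_nonneg (fun m hm => (hfac m (hsub hm)).1)
    calc (∏ m ∈ win 2 n \ win c n, (1 - cram m)) * ∏ m ∈ win c n, (1 - cram m)
        ≤ 1 * ∏ m ∈ win c n, (1 - cram m) := mul_le_mul_of_nonneg_right h1 h2
      _ = ∏ m ∈ win c n, (1 - cram m) := one_mul _
  have h1 : Summable (fun n : ℕ => Real.exp (-1) * (1 / (n : ℝ))) := by
    refine Summable.of_norm_bounded_eventually_nat hsum ?_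
    filter_upwards [hlow] with n hn
    rw [Real.norm_eq_abs, abs_of_nonneg (by positivity)]
    exact hn
  have h2 : Summable (fun n : ℕ => (1 / (n : ℝ))) :=
    (summable_mul_left_iff (Real.exp_pos _).ne').1 h1
  exact Real.not_summable_one_div_natCast h2

end Pool.Agent.Work.MP_73869e_nt
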