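import Pool.Agent.Work.MP_73869e_nt.P
import Pool.Agent.Work.MP_73869e_nt.WB

set_option autoImplicit false

open MeasureTheory ProbabilityTheory Filter Topology

namespace Pool.Agent.Work.MP_73869e_nt

/-- `exp (-(x + 0.52 x²)) ≤ 1 - x` for small `x` -/
theorem exp_le_one_sub {x : ℝ} (h0 : 0 ≤ x) (h1 : x ≤ 1 / 30) :
    Real.exp (-(x + 0.52 * x ^ 2)) ≤ 1 - x := by
  have h2 : Real.exp (-(x + 0.52 * x ^ 2)) ≤
      1 - (x + 0.52 * x ^ 2) + (x + 0.52 * x ^ 2) ^ 2 / 2 := by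
    have h3 := Real.quadratic_le_exp_of_nonneg (x := x + 0.52 * x ^ 2) (by positivity)
    rw [Real.exp_neg, inv_le_comm₀ (Real.exp_pos _) (by nlinarith)]
    refine le_trans ?_ h3
    set y := x + 0.52 * x ^ 2 with hy
    have hy0 : 0 ≤ y := by positivity
    have hpos : 0 < 1 - y + y ^ 2 / 2 := by nlinarith
    rw [inv_le_iff_one_le_mul₀ hpos]
    nlinarith [pow_nonneg hy0 4]
  nlinarith [mul_nonneg h0 h0, mul_nonneg (mul_nonneg h0 h0) (by linarith : (0 : ℝ) ≤ 1 / 30 - x),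
    mul_nonneg (mul_nonneg h0 (mul_nonneg h0 h0)) (by linarith : (0 : ℝ) ≤ 1 / 30 - x)]

/-- the problem's constant -/
noncomputable def c0 : ℝ := 1 / (Real.log 2) ^ 2

theorem c0_pos : 0 < c0 := by
  unfold c0
  have := Real.log_two_gt_d9
  positivity

theorem c0_le : c0 ≤ 2.0814 := by
  unfold c0
  have := Real.log_two_gt_d9
  rw [div_le_iff₀ (by positivity)]
  nlinarith

theorem c0_gt : 2 < c0 := by
  unfold c0
  have := Real.log_two_lt_d9
  have h2 := Real.log_two_gt_d9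
  rw [lt_div_iff₀ (by positivity)]
  nlinarith

/-- lower bound for the probability that the window of `n` is empty -/
theorem f_lower {n : ℕ} (hn : 4765516 < n) :
    Real.exp (-0.2706) * (n : ℝ) ^ (-(1.0407 : ℝ)) ≤ ∏ m ∈ win c0 n, (1 - cram m) := by
  have hn' : (4765517 : ℝ) ≤ n := by exact_mod_cast hn
  have hnpos : (0 : ℝ) < n := by linarith
  have hlog15 : 15 ≤ Real.log n := by
    have h1 : (2 : ℝ) ^ 22 ≤ n := by norm_num; linarith
    have h2 : Real.log ((2 : ℝ) ^ 22) ≤ Real.log n := Real.log_le_log (by positivity) h1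
    rw [Real.log_pow] at h2
    have := Real.log_two_gt_d9
    push_cast at h2
    linarith
  set L := Real.log n with hL
  set x : ℝ := 1 / (2 * L) with hx
  have hx0 : 0 ≤ x := by positivity
  have hx1 : x ≤ 1 / 30 := by
    rw [hx]; apply one_div_le_one_div_of_le <;> linarith
  have h1 : ∀ m ∈ win c0 n, Real.exp (-(x + 0.52 * x ^ 2)) ≤ 1 - cram m := by
    intro m hm
    have hm' := (Finset.mem_Ioc.1 hm).1
    have hm1 : (n : ℝ) ^ 2 ≤ m := by exact_mod_cast hm'.le
    have h2 : 2 * L ≤ Real.log m := by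
      calc 2 * L = Real.log ((n : ℝ) ^ 2) := by rw [Real.log_pow, ← hL]; norm_num
        _ ≤ Real.log m := Real.log_le_log (by positivity) hm1
    have h3 : cram m ≤ x := by
      unfold cram
      rw [hx]
      apply one_div_le_one_div_of_le (by linarith) h2
    have h4 := exp_le_one_sub hx0 hx1
    linarith
  have h2 : ∏ _m ∈ win c0 n, Real.exp (-(x + 0.52 * x ^ 2)) ≤ ∏ m ∈ win c0 n, (1 - cram m) :=
    Finset.prod_le_prod (fun _ _ => (Real.exp_pos _).le) h1
  refine le_trans ?_ h2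
  rw [Finset.prod_const, ← Real.exp_nat_mul, Real.rpow_def_of_pos hnpos, ← Real.exp_add]
  apply Real.exp_le_exp.2
  have hcard : (((win c0 n).card : ℕ) : ℝ) ≤ c0 * L ^ 2 := by
    unfold win
    rw [Nat.card_Ioc, Nat.add_sub_cancel_left]
    exact Nat.floor_le (mul_nonneg c0_pos.le (sq_nonneg _))
  have h3 : (((win c0 n).card : ℕ) : ℝ) * (x + 0.52 * x ^ 2) ≤ c0 * L ^ 2 * (x + 0.52 * x ^ 2) :=
    mul_le_mul_of_nonneg_right hcard (by positivity)
  have h4 : c0 * L ^ 2 * (x + 0.52 * x ^ 2) = c0 * (L / 2 + 0.13) := by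
    rw [hx]
    field_simp
    ring
  have h5 := c0_le
  have h6 : c0 * (L / 2 + 0.13) ≤ 2.0814 * (L / 2 + 0.13) :=
    mul_le_mul_of_nonneg_right h5 (by positivity)
  nlinarith

theorem tele {n : ℕ} (hn : 0 < n) {s : ℝ} (hs : 0 < s) :
    ((n : ℝ) ^ (-s) - ((n : ℝ) + 1) ^ (-s)) / s ≤ (n : ℝ) ^ (-(1 + s)) := by
  have hn' : (0 : ℝ) < n := by exact_mod_cast hn
  have h1 : ((n : ℝ) + 1) ^ (-s) = (n : ℝ) ^ (-s) * (1 + 1 / n) ^ (-s) := by
    rw [← Real.mul_rpow hn'.le (by positivity)]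
    congr 1
    field_simp
  have h2 : 1 - s / n ≤ (1 + 1 / (n : ℝ)) ^ (-s) := by
    rw [Real.rpow_def_of_pos (by positivity)]
    have h3 : Real.log (1 + 1 / (n : ℝ)) ≤ 1 / n := by
      have := Real.log_le_sub_one_of_pos (show (0 : ℝ) < 1 + 1 / n by positivity)
      linarith
    have h4 := Real.add_one_le_exp (Real.log (1 + 1 / (n : ℝ)) * (-s))
    have h5 : s * Real.log (1 + 1 / (n : ℝ)) ≤ s * (1 / n) := mul_le_mul_of_nonneg_left h3 hs.le
    have h6 : s * (1 / (n : ℝ)) = s / n := by ring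
    linarith
  rw [div_le_iff₀ hs, h1]
  have h7 : (n : ℝ) ^ (-(1 + s)) = (n : ℝ) ^ (-s) * (1 / n) := by
    rw [show -(1 + s) = -s + (-1) by ring, Real.rpow_add hn', Real.rpow_neg_one, one_div]
  rw [h7]
  have h8 : 0 < (n : ℝ) ^ (-s) := Real.rpow_pos_of_pos hn' _
  have h9 := mul_le_mul_of_nonneg_left h2 h8.le
  have h10 : (n : ℝ) ^ (-s) * (1 - s / n) = (n : ℝ) ^ (-s) - (n : ℝ) ^ (-s) * (1 / n) * s := by ring
  linarith

theorem sum_tele {a b : ℕ} (ha : 0 < a) (hab : a ≤ b) {s : ℝ} (hs : 0 < s) :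
    ((a : ℝ) ^ (-s) - (b : ℝ) ^ (-s)) / s ≤ ∑ n ∈ Finset.Ico a b, (n : ℝ) ^ (-(1 + s)) := by
  induction b, hab using Nat.le_induction with
  | base => simp
  | succ b hab ih =>
    rw [Finset.sum_Ico_succ_top hab]
    have := tele (n := b) (by omega) hs
    push_cast
    have h1 : ((a : ℝ) ^ (-s) - ((b : ℝ) + 1) ^ (-s)) / s =
        ((a : ℝ) ^ (-s) - (b : ℝ) ^ (-s)) / s + ((b : ℝ) ^ (-s) - ((b : ℝ) + 1) ^ (-s)) / s := by ring
    linarith

/-- the expected number of exceptions exceeds 10 -/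
theorem sum_f_lower : ∃ b : ℕ, (10 : ℝ) ≤ ∑ n ∈ Finset.Ico 4765517 b, ∏ m ∈ win c0 n, (1 - cram m) := by
  have hs : (0 : ℝ) < 0.0407 := by norm_num
  have hlim : Tendsto (fun b : ℕ => Real.exp (-0.2706) * ((((4765517 : ℕ) : ℝ) ^ (-(0.0407 : ℝ)) - (b : ℝ) ^ (-(0.0407 : ℝ))) / 0.0407))
      atTop (𝓝 (Real.exp (-0.2706) * ((((4765517 : ℕ) : ℝ) ^ (-(0.0407 : ℝ)) - 0) / 0.0407))) := by
    apply Tendsto.const_mul
    apply Tendsto.div_const
    apply Tendsto.const_sub
    exact (tendsto_rpow_neg_atTop hs).comp tendsto_natCast_atTop_atTop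
  have hval : (10 : ℝ) < Real.exp (-0.2706) * ((((4765517 : ℕ) : ℝ) ^ (-(0.0407 : ℝ)) - 0) / 0.0407) := by
    rw [sub_zero, Real.rpow_def_of_pos (by norm_num)]
    have h1 : Real.log ((4765517 : ℕ) : ℝ) ≤ 15.388 := by
      have h2 : (((4765517 : ℕ) : ℝ)) ^ 5 ≤ (2 : ℝ) ^ 111 := by norm_num
      have h3 : Real.log ((((4765517 : ℕ) : ℝ)) ^ 5) ≤ Real.log ((2 : ℝ) ^ 111) :=
        Real.log_le_log (by positivity) h2
      rw [Real.log_pow, Real.log_pow] at h3
      have := Real.log_two_lt_d9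
      push_cast at h3 ⊢
      linarith
    have h4 : Real.exp (-0.897) ≤ Real.exp (-0.2706) * Real.exp (Real.log ((4765517 : ℕ) : ℝ) * -(0.0407 : ℝ)) := by
      rw [← Real.exp_add]
      apply Real.exp_le_exp.2
      linarith
    have h5 : (0.4075 : ℝ) < Real.exp (-0.897) := by
      have h6 : Real.exp 0.897 < 2.4535 := by
        have h7 := Real.exp_bound' (x := 0.897) (by norm_num) (by norm_num) (n := 7) (by norm_num)
        refine lt_of_le_of_lt h7 ?_
        norm_num [Finset.sum_range_succ, Nat.factorial]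
      rw [Real.exp_neg, lt_inv_comm₀ (by norm_num) (Real.exp_pos _)]
      refine h6.trans ?_
      norm_num
    rw [← mul_div_assoc, lt_div_iff₀ hs]
    linarith
  have hev := (hlim.eventually_const_lt hval).and (eventually_ge_atTop 4765517)
  obtain ⟨b, hb, hb2⟩ := hev.exists
  refine ⟨b, hb.le.trans ?_⟩
  have h1 := sum_tele (a := 4765517) (b := b) (by norm_num) hb2 hs
  calc _ ≤ Real.exp (-0.2706) * ∑ n ∈ Finset.Ico 4765517 b, (n : ℝ) ^ (-(1 + (0.0407 : ℝ))) :=
        mul_le_mul_of_nonneg_left h1 (Real.exp_pos _).le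
    _ = ∑ n ∈ Finset.Ico 4765517 b, Real.exp (-0.2706) * (n : ℝ) ^ (-(1 + (0.0407 : ℝ))) := by
        rw [Finset.mul_sum]
    _ ≤ _ := by
        apply Finset.sum_le_sum
        intro n hn
        have := f_lower (n := n) (by have := (Finset.mem_Ico.1 hn).1; omega)
        norm_num at this ⊢
        exact this

theorem c0_window {n : ℕ} (hn : 4765516 < n) : ⌊c0 * (Real.log n) ^ 2⌋₊ ≤ 2 * n := by
  apply Nat.floor_le_of_le
  have hn' : (4765517 : ℝ) ≤ n := by exact_mod_cast hn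
  have hnpos : (0 : ℝ) < n := by linarith
  -- log n ≤ 4 n^(1/4)
  have h1 : Real.log n ≤ (n : ℝ) ^ (1 / 4 : ℝ) / (1 / 4 : ℝ) := Real.log_le_rpow_div hnpos.le (by norm_num)
  have h0 : 0 ≤ Real.log n := Real.log_nonneg (by linarith)
  have h2 : (Real.log n) ^ 2 ≤ 16 * (n : ℝ) ^ (1 / 2 : ℝ) := by
    calc (Real.log n) ^ 2 ≤ ((n : ℝ) ^ (1 / 4 : ℝ) / (1 / 4 : ℝ)) ^ 2 := pow_le_pow_left₀ h0 h1 2
      _ = 16 * ((n : ℝ) ^ (1 / 4 : ℝ)) ^ 2 := by ring
      _ = 16 * (n : ℝ) ^ (1 / 2 : ℝ) := by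
          rw [← Real.rpow_natCast, ← Real.rpow_mul hnpos.le]; norm_num
  have h3 : (17 : ℝ) ≤ (n : ℝ) ^ (1 / 2 : ℝ) := by
    rw [← Real.sqrt_eq_rpow]
    apply Real.le_sqrt_of_sq_le
    linarith
  have h4 : (n : ℝ) ^ (1 / 2 : ℝ) * (n : ℝ) ^ (1 / 2 : ℝ) = n := by
    rw [← Real.rpow_add hnpos]; norm_num
  have h5 := c0_le
  have h6 := c0_pos
  have h7 : c0 * (Real.log n) ^ 2 ≤ 2.0814 * (16 * (n : ℝ) ^ (1 / 2 : ℝ)) :=
    mul_le_mul h5 h2 (sq_nonneg _) (by norm_num)
  push_cast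
  nlinarith

theorem c0_disjoint {n n' : ℕ} (hn : 4765516 < n) (h : n < n') : Disjoint (win c0 n) (win c0 n') := by
  rw [Finset.disjoint_left]
  intro m hm hm'
  have h1 := Finset.mem_Ioc.1 hm
  have h2 := Finset.mem_Ioc.1 hm'
  have h3 := c0_window hn
  have h4 : (n + 1) ^ 2 ≤ n' ^ 2 := Nat.pow_le_pow_left h 2
  nlinarith

theorem hcram (m : ℕ) (hm : 3 ≤ m) : 0 ≤ cram m ∧ cram m ≤ 1 := by
  have hm' : (3 : ℝ) ≤ m := by exact_mod_cast hm
  have hlog : 1 ≤ Real.log m := by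
    rw [Real.le_log_iff_exp_le (by linarith)]
    have := Real.exp_one_lt_d9
    linarith
  unfold cram
  exact ⟨one_div_nonneg.2 (by linarith), by rw [div_le_one (by linarith)]; exact hlog⟩

/-- Cramér's model makes the assertion of the problem very unlikely -/
theorem cramer_prob {Ω : Type*} [MeasurableSpace Ω] (μ : Measure Ω) [IsProbabilityMeasure μ]
    (A : ℕ → Set Ω) (hmeas : ∀ m, MeasurableSet (A m)) (hind : iIndepSet A μ)
    (hp : ∀ m, 3 ≤ m → μ (A m) = ENNReal.ofReal (cram m)) :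
    μ {ω | ∀ n : ℕ, 4765516 < n → ∃ m ∈ win c0 n, ω ∈ A m} ≤ ENNReal.ofReal (Real.exp (-10)) := by
  obtain ⟨b, hb⟩ := sum_f_lower
  set E : ℕ → Set Ω := fun n => ⋂ m ∈ win c0 n, (A m)ᶜ with hE
  set K := Finset.Ico 4765517 b with hK
  have hK1 : ∀ n ∈ K, 4765516 < n := fun n hn => by have := (Finset.mem_Ico.1 hn).1; omega
  have hbig : ∀ n ∈ K, ∀ m ∈ win c0 n, 3 ≤ m := by
    intro n hn m hm
    have h1 := (Finset.mem_Ioc.1 hm).1
    have h2 := hK1 n hn
    nlinarith
  have hEval : ∀ n ∈ K, μ (E n) = ENNReal.ofReal (∏ m ∈ win c0 n, (1 - cram m)) := by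
    intro n hn
    rw [hE]
    simp only
    rw [meas_biInter_compl hind, ENNReal.ofReal_prod_of_nonneg]
    · refine Finset.prod_congr rfl fun m hm => ?_
      exact meas_compl (hmeas m) (hp m (hbig n hn m hm)) (hcram m (hbig n hn m hm))
    · intro m hm
      linarith [(hcram m (hbig n hn m hm)).2]
  have hf01 : ∀ n ∈ K, 0 ≤ ∏ m ∈ win c0 n, (1 - cram m) ∧ ∏ m ∈ win c0 n, (1 - cram m) ≤ 1 := by
    intro n hn
    constructor
    · apply Finset.prod_nonneg
      intro m hm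
      linarith [(hcram m (hbig n hn m hm)).2]
    · apply Finset.prod_le_one
      · intro m hm
        linarith [(hcram m (hbig n hn m hm)).2]
      · intro m hm
        linarith [(hcram m (hbig n hn m hm)).1]
  have hEmeas : ∀ n, MeasurableSet (E n) := fun n =>
    Finset.measurableSet_biInter _ fun m _ => (hmeas m).compl
  -- the sets `E (n + 4765517)` are independent
  set E' : ℕ → Set Ω := fun n => E (n + 4765517) with hE'
  have hindE : iIndepSet E' μ := by
    rw [iIndepSet_iff_meas_biInter (fun n => hEmeas _)]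
    intro s
    have h1 : ⋂ n ∈ s, E' n = ⋂ m ∈ s.biUnion (fun n => win c0 (n + 4765517)), (A m)ᶜ := by
      ext ω
      simp only [hE', hE, Set.mem_iInter, Finset.mem_biUnion]
      constructor
      · rintro h m ⟨n, hn, hm⟩
        exact h n hn m hm
      · intro h n hn m hm
        exact h m ⟨n, hn, hm⟩
    rw [h1, meas_biInter_compl hind, Finset.prod_biUnion]
    · refine Finset.prod_congr rfl fun n _ => ?_
      exact (meas_biInter_compl hind _).symm
    · intro n _ n' _ hne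
      rcases lt_or_gt_of_ne hne with h2 | h2
      · exact c0_disjoint (by omega) (by omega)
      · exact (c0_disjoint (by omega) (by omega)).symm
  have hsub : {ω | ∀ n : ℕ, 4765516 < n → ∃ m ∈ win c0 n, ω ∈ A m} ⊆
      ⋂ n ∈ Finset.range (b - 4765517), (E' n)ᶜ := by
    intro ω hω
    simp only [Set.mem_iInter, Set.mem_compl_iff]
    intro n _ hmem
    obtain ⟨m, hm, hmA⟩ := hω (n + 4765517) (by omega)
    simp only [hE', hE, Set.mem_iInter] at hmem
    exact hmem m hm hmA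
  refine (measure_mono hsub).trans ?_
  rw [meas_biInter_compl hindE]
  have hmemK : ∀ n ∈ Finset.range (b - 4765517), n + 4765517 ∈ K := by
    intro n hn
    rw [hK, Finset.mem_Ico]
    have := Finset.mem_range.1 hn
    omega
  have h3 : ∀ n ∈ Finset.range (b - 4765517), μ ((E' n)ᶜ) =
      ENNReal.ofReal (1 - ∏ m ∈ win c0 (n + 4765517), (1 - cram m)) := by
    intro n hn
    have h4 := hmemK n hn
    rw [prob_compl_eq_one_sub (hEmeas _), hEval _ h4, ENNReal.ofReal_sub _ (hf01 _ h4).1,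
      ENNReal.ofReal_one]
  rw [Finset.prod_congr rfl h3, ← ENNReal.ofReal_prod_of_nonneg]
  · apply ENNReal.ofReal_le_ofReal
    calc ∏ n ∈ Finset.range (b - 4765517), (1 - ∏ m ∈ win c0 (n + 4765517), (1 - cram m))
        ≤ ∏ n ∈ Finset.range (b - 4765517),
            Real.exp (-∏ m ∈ win c0 (n + 4765517), (1 - cram m)) := by
          apply Finset.prod_le_prod
          · intro n hn
            linarith [(hf01 _ (hmemK n hn)).2]
          · intro n hn
            have := Real.add_one_le_exp (-∏ m ∈ win c0 (n + 4765517), (1 - cram m))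
            linarith
      _ = Real.exp (-∑ n ∈ Finset.range (b - 4765517), ∏ m ∈ win c0 (n + 4765517), (1 - cram m)) := by
          rw [← Real.exp_sum, Finset.sum_neg_distrib]
      _ ≤ Real.exp (-10) := by
          apply Real.exp_le_exp.2
          have h5 : ∑ n ∈ Finset.range (b - 4765517), ∏ m ∈ win c0 (n + 4765517), (1 - cram m) =
              ∑ n ∈ K, ∏ m ∈ win c0 n, (1 - cram m) := by
            rw [hK, Finset.sum_Ico_eq_sum_range]
            refine Finset.sum_congr rfl fun n _ => ?_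
            rw [add_comm]
          rw [h5]
          linarith
  · intro n hn
    linarith [(hf01 _ (hmemK n hn)).2]

end Pool.Agent.Work.MP_73869e_nt
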