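import Pool.Agent.Work.MP_73869e_nt.GC
import Pool.Agent.Work.MP_73869e_nt.K

set_option autoImplicit false

open MeasureTheory ProbabilityTheory Filter Topology

namespace Pool.Agent.Work.MP_73869e_nt

/-- the models exist, with all values prescribed -/
theorem exists_model' (d : ℕ → ℝ) :
    ∃ (Ω : Type) (_ : MeasurableSpace Ω) (μ : Measure Ω) (_ : IsProbabilityMeasure μ)
      (A : ℕ → Set Ω), (∀ m, MeasurableSet (A m)) ∧ iIndepSet A μ ∧
        ∀ m, 0 ≤ d m → d m ≤ 1 → μ (A m) = ENNReal.ofReal (d m) := by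
  classical
  -- truncated densities
  let q : ℕ → ℝ := fun m => if 0 ≤ d m ∧ d m ≤ 1 then d m else 0
  have hq : ∀ m, 0 ≤ q m ∧ q m ≤ 1 := by
    intro m
    by_cases h : 0 ≤ d m ∧ d m ≤ 1
    · simp only [q, if_pos h]; exact h
    · simp only [q, if_neg h]; exact ⟨le_rfl, zero_le_one⟩
  let ν : ℕ → Measure Bool := fun m =>
    ENNReal.ofReal (q m) • Measure.dirac true + ENNReal.ofReal (1 - q m) • Measure.dirac false
  have hν : ∀ m, IsProbabilityMeasure (ν m) := by
    intro m
    refine ⟨?_⟩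
    simp only [ν, Measure.add_apply, Measure.smul_apply, smul_eq_mul, measure_univ, mul_one]
    rw [← ENNReal.ofReal_add (hq m).1 (by linarith [(hq m).2])]
    simp
  let μ : Measure (ℕ → Bool) := Measure.infinitePi ν
  let A : ℕ → Set (ℕ → Bool) := fun m => {ω | ω m = true}
  have hA : ∀ m, MeasurableSet (A m) := fun m =>
    measurableSet_eq_fun (measurable_pi_apply m) measurable_const
  have hbi : ∀ s : Finset ℕ, μ (⋂ m ∈ s, A m) = ∏ m ∈ s, ν m {true} := by
    intro s
    have h1 : ⋂ m ∈ s, A m = Set.pi (s : Set ℕ) (fun _ => ({true} : Set Bool)) := by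
      ext ω; simp [A]
    rw [h1]
    exact Measure.infinitePi_pi ν (fun _ _ => MeasurableSet.singleton _)
  have hone : ∀ m, μ (A m) = ν m {true} := by
    intro m
    have := hbi {m}
    simpa using this
  refine ⟨ℕ → Bool, inferInstance, μ, inferInstance, A, hA, ?_, ?_⟩
  · rw [iIndepSet_iff_meas_biInter hA]
    intro s
    rw [hbi]
    exact Finset.prod_congr rfl fun m _ => (hone m).symm
  · intro m hm0 hm1
    rw [hone]
    simp only [ν, Measure.add_apply, Measure.smul_apply, smul_eq_mul]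
    rw [Measure.dirac_apply' _ (MeasurableSet.singleton _),
      Measure.dirac_apply' _ (MeasurableSet.singleton _)]
    simp [q, hm0, hm1]

/-- `(logb 2 n)² = c0 (log n)²` -/
theorem logb_sq (n : ℕ) : (Real.logb 2 n) ^ 2 = c0 * (Real.log n) ^ 2 := by
  unfold Real.logb c0
  rw [div_pow]
  ring

theorem mem_win_logb (n m : ℕ) :
    m ∈ win c0 n ↔ n ^ 2 < m ∧ (m : ℝ) ≤ (n : ℝ) ^ 2 + (Real.logb 2 n) ^ 2 := by
  rw [mem_win c0_pos.le, logb_sq]

theorem mem_win_of_le {c : ℝ} {n m : ℕ} (h1 : n ^ 2 < m)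
    (h2 : (m : ℝ) ≤ (n : ℝ) ^ 2 + c * (Real.log n) ^ 2) : m ∈ win c n := by
  rcases le_or_gt 0 c with hc | hc
  · exact (mem_win hc n m).2 ⟨h1, h2⟩
  · exfalso
    have h3 : (n : ℝ) ^ 2 < m := by exact_mod_cast h1
    have h4 : c * (Real.log n) ^ 2 ≤ 0 := mul_nonpos_of_nonpos_of_nonneg hc.le (sq_nonneg _)
    linarith

/-- the problem's constant is below Granville's threshold -/
theorem c0_lt : c0 < 4 * Real.exp (-Real.eulerMascheroniConstant) := by
  have h1 : Real.eulerMascheroniConstant < 0.64 := by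
    have h2 := Real.eulerMascheroniConstant_lt_eulerMascheroniSeq' 8
    refine h2.trans ?_
    have h3 : Real.eulerMascheroniSeq' 8 = (harmonic 8 : ℝ) - Real.log 8 := by
      simp [Real.eulerMascheroniSeq']
    have h4 : (harmonic 8 : ℚ) = 761 / 280 := by
      norm_num [harmonic, Finset.sum_range_succ]
    have h5 : Real.log 8 = 3 * Real.log 2 := by
      rw [show (8 : ℝ) = 2 ^ 3 by norm_num, Real.log_pow]; norm_num
    rw [h3, h4, h5]
    have := Real.log_two_gt_d9
    push_cast
    linarith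
  have h2 : Real.exp 0.64 < 1.9 := by
    have h7 := Real.exp_bound' (x := 0.64) (by norm_num) (by norm_num) (n := 6) (by norm_num)
    refine lt_of_le_of_lt h7 ?_
    norm_num [Finset.sum_range_succ, Nat.factorial]
  have h3 : Real.exp Real.eulerMascheroniConstant < 1.9 := (Real.exp_lt_exp.2 h1).trans h2
  rw [Real.exp_neg]
  have h4 := Real.exp_pos Real.eulerMascheroniConstant
  have h5 : c0 * Real.exp Real.eulerMascheroniConstant < 4 := by
    have := c0_le
    have := c0_pos
    nlinarith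
  rw [← div_eq_mul_inv, lt_div_iff₀ h4]
  exact h5

end Pool.Agent.Work.MP_73869e_nt
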