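import Pool.Agent.Work.MP_73869e_nt.C4b

set_option autoImplicit false

open MeasureTheory ProbabilityTheory Filter Topology

namespace Pool.Agent.Work.MP_73869e_nt


theorem granz_eq_zero {z : ℕ → ℝ} {m p : ℕ} (hp : p.Prime) (hpm : p ∣ m)
    (h : (p : ℝ) ≤ z m) : granz z m = 0 := by
  unfold granz
  rw [if_pos ⟨p, hp, h, hpm⟩]

theorem granz_nonneg {z : ℕ → ℝ} (m : ℕ) : 0 ≤ granz z m := by
  unfold granz
  split_ifs
  · exact le_rfl
  · apply one_div_nonneg.2
    apply mul_nonneg (mert_pos _).le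
    exact Real.log_natCast_nonneg m

theorem prod_lowerz (z : ℕ → ℝ) (n H T : ℕ) (ρ : ℝ) (hρ0 : 0 ≤ ρ) (hρ1 : ρ ≤ 1) (c : ℝ)
    (hP : primorial T ∣ n) (hwin : ⌊c * (Real.log n) ^ 2⌋₊ ≤ H)
    (hT : ∀ m ∈ win c n, (T : ℝ) ≤ z m)
    (hg : ∀ m ∈ win c n, granz z m ≤ ρ) :
    (1 - ρ) ^ (rough H T).card ≤ ∏ m ∈ win c n, (1 - granz z m) := by
  classical
  have h1 : ∏ m ∈ win c n, (if (∀ p ≤ T, p.Prime → ¬ p ∣ (m - n ^ 2)) then (1 - ρ) else 1)
      ≤ ∏ m ∈ win c n, (1 - granz z m) := by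
    apply Finset.prod_le_prod
    · intro m hm
      split_ifs
      · linarith
      · norm_num
    · intro m hm
      split_ifs with h
      · linarith [hg m hm]
      · push Not at h
        obtain ⟨p, hpT, hp, hpd⟩ := h
        have hpn : p ∣ n := by
          refine dvd_trans ?_ hP
          rw [hp.dvd_primorial_iff]
          exact hpT
        have hm' : n ^ 2 < m := (Finset.mem_Ioc.1 hm).1
        have hpm : p ∣ m := by
          have h2 : p ∣ n ^ 2 := dvd_pow hpn (by norm_num)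
          have h3 : m = (m - n ^ 2) + n ^ 2 := by omega
          rw [h3]
          exact dvd_add hpd h2
        have h4 : (p : ℝ) ≤ z m := le_trans (by exact_mod_cast hpT) (hT m hm)
        rw [granz_eq_zero hp hpm h4]
        norm_num
  refine le_trans ?_ h1
  rw [Finset.prod_ite, Finset.prod_const, Finset.prod_const, one_pow, mul_one]
  apply pow_le_pow_of_le_one (by linarith) (by linarith)
  apply Finset.card_le_card_of_injOn (fun m => m - n ^ 2)
  · intro m hm
    have hm' := Finset.mem_coe.1 hm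
    rw [Finset.mem_filter] at hm'
    obtain ⟨hw, hr⟩ := hm'
    have hw' := Finset.mem_Ioc.1 hw
    simp only [rough, Finset.coe_filter, Finset.mem_Icc, Set.mem_ofPred_eq]
    refine ⟨⟨by omega, by omega⟩, hr⟩
  · intro a ha b hb hab
    have ha' := (Finset.mem_Ioc.1 (Finset.mem_filter.1 (Finset.mem_coe.1 ha)).1).1
    have hb' := (Finset.mem_Ioc.1 (Finset.mem_filter.1 (Finset.mem_coe.1 hb)).1).1
    simp only at hab
    omega

/-- the bound for the density -/
theorem granz_le {z : ℕ → ℝ} {δ L R : ℝ} (hδ : 0 < δ) (hL : 1 < L) {m : ℕ}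
    (h1 : 2 * (L - 1) ≤ Real.log m)
    (h2 : Real.log m ≤ 2 * L + 1) (hz : z m ≤ (Real.log m) ^ (1 + δ))
    (hR : 1 / mert ((2 * L + 1) ^ (1 + δ)) ≤ R) :
    granz z m ≤ R / (2 * (L - 1)) := by
  have hR0 : 0 ≤ R := le_trans (one_div_nonneg.2 (mert_pos _).le) hR
  unfold granz
  split_ifs
  · apply div_nonneg hR0; linarith
  · have h3 : 0 < 2 * (L - 1) := by linarith
    have h4 : mert ((2 * L + 1) ^ (1 + δ)) ≤ mert (z m) := by
      apply mert_anti
      refine hz.trans ?_
      apply Real.rpow_le_rpow (by linarith) h2 (by linarith)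
    have h5 := mert_pos ((2 * L + 1) ^ (1 + δ))
    calc 1 / (mert (z m) * Real.log m)
        ≤ 1 / (mert ((2 * L + 1) ^ (1 + δ)) * (2 * (L - 1))) := by
          apply one_div_le_one_div_of_le (by positivity)
          apply mul_le_mul h4 h1 h3.le (le_trans h5.le h4)
      _ = (1 / mert ((2 * L + 1) ^ (1 + δ))) / (2 * (L - 1)) := by
          rw [div_div]
      _ ≤ R / (2 * (L - 1)) := by
          apply div_le_div_of_nonneg_right hR h3.le

end Pool.Agent.Work.MP_73869e_nt
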