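import Pool.Agent.Work.MP_73869e_nt.GA

set_option autoImplicit false

open MeasureTheory ProbabilityTheory Filter Topology

namespace Pool.Agent.Work.MP_73869e_nt

/-- one scale, general sieving level `z m = (log m)^(1+o(1))` -/
theorem scalez {c δ G B : ℝ} {z : ℕ → ℝ} (hc : 0 < c) (hδ : 0 < δ) (hδ1 : δ < 1 / 10)
    (hB : B = (1 + δ) ^ 2 * c / 2 +
      (δ + 2 * (1 + δ) ^ 2 * c * (Real.log ((1 + δ) / (1 - 2 * δ)) + δ)))
    (hG : G = (1 + δ) ^ 3 * (Real.exp Real.eulerMascheroniConstant + δ) * B / 2)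
    (hGl : G + 2 * δ < 1)
    (hmert : Tendsto (fun y : ℝ => mert y * Real.log y) atTop
      (𝓝 (Real.exp (-Real.eulerMascheroniConstant))))
    (hz1 : ∀ᶠ m : ℕ in atTop, (Real.log m) ^ (1 - δ) ≤ z m)
    (hz2 : ∀ᶠ m : ℕ in atTop, z m ≤ (Real.log m) ^ (1 + δ))
    (hsemi : ∀ᶠ L : ℝ in atTop, ∀ H : ℕ, (H : ℝ) = c * L ^ 2 →
      ((rough H ⌊L ^ (1 - δ)⌋₊).card : ℝ)
        ≤ Nat.primeCounting H
          + (δ + 2 * (1 + δ) ^ 2 * c * (Real.log ((1 + δ) / (1 - 2 * δ)) + δ)) * (L ^ 2 / Real.log L)) :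
    ∀ᶠ L : ℝ in atTop, ∀ H : ℕ, (H : ℝ) = c * L ^ 2 →
      (Nat.primeCounting H : ℝ) ≤ (1 + δ) * H / Real.log H →
      ∃ F : Finset ℕ, (∀ n ∈ F, Real.exp (L - 1) ≤ n) ∧
        1 ≤ ∑ n ∈ F, ∏ m ∈ win c n, (1 - granz z m) := by
  set E := Real.exp Real.eulerMascheroniConstant with hE
  have hEpos : 0 < E := Real.exp_pos _
  have hlogpos : 0 < Real.log ((1 + δ) / (1 - 2 * δ)) := by
    apply Real.log_pos
    rw [one_lt_div (by linarith)]
    linarith
  have hBpos : 0 < B := by rw [hB]; positivity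
  have hGpos : 0 < G := by rw [hG]; positivity
  set a := 1 - δ with ha
  set τ := a - G with hτ
  have hτpos : 0 < τ := by rw [hτ, ha]; linarith
  have hlog4 : 0 < Real.log 4 := Real.log_pos (by norm_num)
  -- e1
  have e0 : ∀ᶠ L : ℝ in atTop, 10 ≤ L := eventually_ge_atTop 10
  have e1 : ∀ᶠ L : ℝ in atTop, 1 ≤ Real.log L := Real.tendsto_log_atTop.eventually_ge_atTop 1
  -- e2
  have e2 : ∀ᶠ L : ℝ in atTop,
      1 / mert ((2 * L + 1) ^ (1 + δ)) ≤ (E + δ) * ((1 + δ) ^ 2 * Real.log L) := by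
    have t1 : Tendsto (fun y : ℝ => (mert y * Real.log y)⁻¹) atTop
        (𝓝 ((Real.exp (-Real.eulerMascheroniConstant))⁻¹)) :=
      hmert.inv₀ (Real.exp_pos _).ne'
    have t2 : (Real.exp (-Real.eulerMascheroniConstant))⁻¹ < E + δ := by
      rw [← Real.exp_neg, neg_neg]; linarith
    have t3 : ∀ᶠ y : ℝ in atTop, (mert y * Real.log y)⁻¹ < E + δ := t1.eventually_lt_const t2
    have t4 : Tendsto (fun L : ℝ => (2 * L + 1) ^ (1 + δ)) atTop atTop := by
      apply (tendsto_rpow_atTop (by linarith : (0 : ℝ) < 1 + δ)).comp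
      apply tendsto_atTop_add_const_right
      exact Tendsto.const_mul_atTop (by norm_num) tendsto_id
    have t6 : ∀ᶠ L : ℝ in atTop, Real.log 3 / δ ≤ Real.log L :=
      Real.tendsto_log_atTop.eventually_ge_atTop _
    filter_upwards [t4.eventually t3, e0, t6, t4.eventually (eventually_gt_atTop 1), e1] with L h1 h0 h6 h7 he1
    have h9 : 0 < Real.log ((2 * L + 1) ^ (1 + δ)) := Real.log_pos h7
    have h10 : 1 / mert ((2 * L + 1) ^ (1 + δ)) ≤ (E + δ) * Real.log ((2 * L + 1) ^ (1 + δ)) := by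
      have h11 := mert_pos ((2 * L + 1) ^ (1 + δ))
      rw [mul_inv] at h1
      rw [one_div]
      calc (mert ((2 * L + 1) ^ (1 + δ)))⁻¹
          = ((mert ((2 * L + 1) ^ (1 + δ)))⁻¹ * (Real.log ((2 * L + 1) ^ (1 + δ)))⁻¹) *
              Real.log ((2 * L + 1) ^ (1 + δ)) := by
            field_simp
        _ ≤ (E + δ) * Real.log ((2 * L + 1) ^ (1 + δ)) := by
            apply mul_le_mul_of_nonneg_right h1.le h9.le
    refine h10.trans ?_
    apply mul_le_mul_of_nonneg_left _ (by positivity)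
    rw [Real.log_rpow (by linarith)]
    have h12 : Real.log (2 * L + 1) ≤ (1 + δ) * Real.log L := by
      have h13 : Real.log (2 * L + 1) ≤ Real.log (3 * L) := Real.log_le_log (by linarith) (by linarith)
      rw [Real.log_mul (by norm_num) (by linarith)] at h13
      rw [div_le_iff₀ hδ] at h6
      linarith
    have : (1 + δ) * Real.log (2 * L + 1) ≤ (1 + δ) * ((1 + δ) * Real.log L) :=
      mul_le_mul_of_nonneg_left h12 (by linarith)
    calc _ ≤ _ := this
      _ = _ := by ring
  -- log L / L → 0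
  have tlog : Tendsto (fun L : ℝ => Real.log L / L) atTop (𝓝 0) := by
    have := Real.isLittleO_log_id_atTop.tendsto_div_nhds_zero
    simpa using this
  -- e3
  have e3 : ∀ᶠ L : ℝ in atTop, (E + δ) * ((1 + δ) ^ 2 * Real.log L) / (2 * (L - 1)) ≤ δ / 2 := by
    have t1 : ∀ᶠ L : ℝ in atTop, Real.log L / L < δ / (2 * ((E + δ) * (1 + δ) ^ 2)) :=
      tlog.eventually_lt_const (by positivity)
    filter_upwards [t1, e0] with L h1 h0
    rw [div_lt_div_iff₀ (by linarith) (by positivity)] at h1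
    rw [div_le_div_iff₀ (by linarith) (by norm_num)]
    nlinarith
  -- e5
  have e5 : ∀ᶠ L : ℝ in atTop, 2 * Real.log L ≤ (1 + δ) * Real.log (c * L ^ 2) := by
    have t1 : ∀ᶠ L : ℝ in atTop, (1 + δ) * (-Real.log c) / (2 * δ) ≤ Real.log L :=
      Real.tendsto_log_atTop.eventually_ge_atTop _
    filter_upwards [t1, e0] with L h1 h0
    rw [Real.log_mul hc.ne' (by positivity), Real.log_pow]
    rw [div_le_iff₀ (by positivity)] at h1
    push_cast
    nlinarith
  -- e7
  have e7 : ∀ᶠ L : ℝ in atTop, G * (L ^ 2 / (L - 1)) ≤ (G + τ / 2) * L := by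
    filter_upwards [e0, eventually_ge_atTop (2 * (G + τ / 2) / τ)] with L h0 h1
    rw [div_le_iff₀ hτpos] at h1
    rw [← mul_div_assoc, div_le_iff₀ (by linarith)]
    nlinarith
  -- e8
  have e8 : ∀ᶠ L : ℝ in atTop, 4 ≤ Real.exp (a * L) := by
    have hapos : 0 < a := by linarith
    have : Tendsto (fun L : ℝ => Real.exp (a * L)) atTop atTop :=
      Real.tendsto_exp_atTop.comp (Tendsto.const_mul_atTop hapos tendsto_id)
    exact this.eventually_ge_atTop 4
  have e9 : ∀ᶠ L : ℝ in atTop, 4 ≤ Real.exp (τ / 2 * L) := by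
    have : Tendsto (fun L : ℝ => Real.exp (τ / 2 * L)) atTop atTop :=
      Real.tendsto_exp_atTop.comp (Tendsto.const_mul_atTop (by positivity) tendsto_id)
    exact this.eventually_ge_atTop 4
  have e10 : ∀ᶠ L : ℝ in atTop, c * L ^ 2 ≤ Real.exp (2 * L) := by
    have t1 : Tendsto (fun L : ℝ => Real.exp L / L ^ 2) atTop atTop :=
      Real.tendsto_exp_div_pow_atTop 2
    filter_upwards [t1.eventually_ge_atTop c, e0] with L h1 h0
    rw [le_div_iff₀ (by positivity)] at h1
    refine h1.trans ?_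
    apply Real.exp_le_exp.2
    linarith
  -- e11 : the primorial is small
  have e11 : ∀ᶠ L : ℝ in atTop, Real.log 4 * L ^ (1 - δ) ≤ δ * L := by
    have t1 : Tendsto (fun L : ℝ => L ^ δ) atTop atTop := tendsto_rpow_atTop hδ
    filter_upwards [t1.eventually_ge_atTop (Real.log 4 / δ), e0] with L h1 h0
    have h2 : L ^ (1 - δ) * L ^ δ = L := by
      rw [← Real.rpow_add (by linarith)]; simp
    rw [div_le_iff₀ hδ] at h1
    have h3 : 0 < L ^ (1 - δ) := Real.rpow_pos_of_pos (by linarith) _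
    calc Real.log 4 * L ^ (1 - δ) ≤ (L ^ δ * δ) * L ^ (1 - δ) :=
          mul_le_mul_of_nonneg_right h1 h3.le
      _ = δ * (L ^ (1 - δ) * L ^ δ) := by ring
      _ = δ * L := by rw [h2]
  -- e12 : thresholds for z
  obtain ⟨M, hM⟩ := eventually_atTop.1 (hz1.and hz2)
  have e12 : ∀ᶠ L : ℝ in atTop, (M : ℝ) ≤ Real.exp (2 * (L - 1)) := by
    have : Tendsto (fun L : ℝ => Real.exp (2 * (L - 1))) atTop atTop := by
      apply Real.tendsto_exp_atTop.comp
      apply Tendsto.const_mul_atTop (by norm_num)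
      exact tendsto_atTop_add_const_right _ _ tendsto_id
    exact this.eventually_ge_atTop _
  filter_upwards [e0, e1, e2, e3, e5, e7, e8, e9, e10, e11, e12, hsemi] with L h0 h1 h2 h3 h5 h7 h8 h9 h10 h11 h12 hse
  intro H hH hpi
  set T : ℕ := ⌊L ^ (1 - δ)⌋₊ with hTdef
  have hTle : (T : ℝ) ≤ L ^ (1 - δ) := Nat.floor_le (Real.rpow_pos_of_pos (by linarith) _).le
  set N : ℕ := ⌊Real.exp L⌋₊ with hNdef
  have hNle : (N : ℝ) ≤ Real.exp L := Nat.floor_le (Real.exp_pos _).le
  have hNge : Real.exp L < N + 1 := Nat.lt_floor_add_one _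
  set P : ℕ := primorial T with hPdef
  have hPpos : 0 < P := primorial_pos T
  have hPle : (P : ℝ) ≤ Real.exp (δ * L) := by
    have h11' : (P : ℝ) ≤ 4 ^ T := by exact_mod_cast primorial_le_four_pow T
    refine h11'.trans ?_
    have h12' : (4 : ℝ) ^ T = Real.exp (Real.log 4 * T) := by
      rw [mul_comm, Real.exp_nat_mul, Real.exp_log (by norm_num)]
    rw [h12']
    apply Real.exp_le_exp.2
    refine le_trans ?_ h11
    exact mul_le_mul_of_nonneg_left hTle hlog4.le
  set ρ : ℝ := (E + δ) * ((1 + δ) ^ 2 * Real.log L) / (2 * (L - 1)) with hρ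
  have hρ0 : 0 ≤ ρ := by
    rw [hρ]; apply div_nonneg <;> [positivity; linarith]
  have hρ1 : ρ ≤ 1 / 2 := by linarith
  -- the rough count
  set S : ℕ := (rough H T).card with hS
  have hSle : (S : ℝ) ≤ B * (L ^ 2 / Real.log L) := by
    have h11' := hse H hH
    have h12' : (Nat.primeCounting H : ℝ) ≤ (1 + δ) ^ 2 * c / 2 * (L ^ 2 / Real.log L) := by
      refine hpi.trans ?_
      rw [hH]
      have h13 : 0 < Real.log (c * L ^ 2) := by
        by_contra hcon
        have hcon' := mul_nonpos_of_nonneg_of_nonpos (by linarith : (0 : ℝ) ≤ 1 + δ) (not_lt.1 hcon)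
        linarith
      rw [div_le_iff₀ h13]
      calc (1 + δ) * (c * L ^ 2) = (1 + δ) * (c * L ^ 2) / (2 * Real.log L) * (2 * Real.log L) := by
            field_simp
        _ ≤ (1 + δ) * (c * L ^ 2) / (2 * Real.log L) * ((1 + δ) * Real.log (c * L ^ 2)) := by
            apply mul_le_mul_of_nonneg_left h5
            positivity
        _ = _ := by field_simp
    rw [hB, add_mul]
    linarith
  have hexpo : (ρ + ρ ^ 2) * S ≤ (G + τ / 2) * L := by
    have h11' : ρ + ρ ^ 2 ≤ (1 + δ) * ρ := by nlinarith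
    have h12' : (ρ + ρ ^ 2) * S ≤ ((1 + δ) * ρ) * (B * (L ^ 2 / Real.log L)) := by
      apply mul_le_mul h11' hSle (by positivity) (by positivity)
    have h13 : ((1 + δ) * ρ) * (B * (L ^ 2 / Real.log L)) = G * (L ^ 2 / (L - 1)) := by
      rw [hρ, hG]
      have : L - 1 ≠ 0 := by linarith
      have : Real.log L ≠ 0 := by linarith
      field_simp
    linarith
  have hexpL : Real.exp (L - 1) * 2 ≤ Real.exp L := by
    have : Real.exp L = Real.exp (L - 1) * Real.exp 1 := by rw [← Real.exp_add]; ring_nf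
    rw [this]
    apply mul_le_mul_of_nonneg_left _ (Real.exp_pos _).le
    have := Real.exp_one_gt_d9
    linarith
  refine ⟨mults N P, ?_, ?_⟩
  · intro n hn
    obtain ⟨_, _, hn3⟩ := mem_mults hPpos hn
    have h11' : (N : ℝ) + 1 ≤ 2 * n := by exact_mod_cast hn3
    linarith
  · have hterm : ∀ n ∈ mults N P, Real.exp (-((G + τ / 2) * L)) ≤ ∏ m ∈ win c n, (1 - granz z m) := by
      intro n hn
      obtain ⟨hn1, hn2, hn3⟩ := mem_mults hPpos hn
      have h11' : (N : ℝ) + 1 ≤ 2 * n := by exact_mod_cast hn3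
      have hnL : (n : ℝ) ≤ Real.exp L := le_trans (by exact_mod_cast hn2) hNle
      have hnL' : Real.exp (L - 1) ≤ n := by linarith
      have hnpos : (0 : ℝ) < n := lt_of_lt_of_le (Real.exp_pos _) hnL'
      have hlog1 : Real.log n ≤ L := by
        rw [← Real.log_exp L]; exact Real.log_le_log hnpos hnL
      have hlog2 : L - 1 ≤ Real.log n := by
        rw [← Real.log_exp (L - 1)]; exact Real.log_le_log (Real.exp_pos _) hnL'
      have hwinH : ⌊c * (Real.log n) ^ 2⌋₊ ≤ H := by
        have : c * (Real.log n) ^ 2 ≤ (H : ℝ) := by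
          rw [hH]
          have : Real.log n ^ 2 ≤ L ^ 2 := by
            apply pow_le_pow_left₀ _ hlog1
            linarith
          nlinarith
        exact Nat.floor_le_of_le this
      have hm : ∀ m ∈ win c n, 2 * (L - 1) ≤ Real.log m ∧ Real.log m ≤ 2 * L + 1 ∧ M ≤ m := by
        intro m hm
        have hm' := Finset.mem_Ioc.1 hm
        have hm1 : (n : ℝ) ^ 2 ≤ m := by exact_mod_cast hm'.1.le
        have hm2 : (m : ℝ) ≤ (n : ℝ) ^ 2 + H := by
          have : m ≤ n ^ 2 + H := hm'.2.trans (by omega)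
          exact_mod_cast this
        refine ⟨?_, ?_, ?_⟩
        · calc 2 * (L - 1) ≤ 2 * Real.log n := by linarith
            _ = Real.log ((n : ℝ) ^ 2) := by rw [Real.log_pow]; norm_num
            _ ≤ Real.log m := Real.log_le_log (by positivity) hm1
        · have hmpos : (0 : ℝ) < m := lt_of_lt_of_le (by positivity) hm1
          rw [← Real.log_exp (2 * L + 1)]
          apply Real.log_le_log hmpos
          have h13 : (n : ℝ) ^ 2 ≤ Real.exp (2 * L) := by
            calc (n : ℝ) ^ 2 ≤ (Real.exp L) ^ 2 := pow_le_pow_left₀ hnpos.le hnL 2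
              _ = Real.exp (2 * L) := by rw [← Real.exp_nat_mul]; norm_num
          have h14 : Real.exp (2 * L) * 2 ≤ Real.exp (2 * L + 1) := by
            rw [Real.exp_add]
            apply mul_le_mul_of_nonneg_left _ (Real.exp_pos _).le
            have := Real.exp_one_gt_d9
            linarith
          rw [hH] at hm2
          linarith
        · have h15 : Real.exp (2 * (L - 1)) ≤ (n : ℝ) ^ 2 := by
            calc Real.exp (2 * (L - 1)) = (Real.exp (L - 1)) ^ 2 := by
                  rw [← Real.exp_nat_mul]; norm_num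
              _ ≤ (n : ℝ) ^ 2 := pow_le_pow_left₀ (Real.exp_pos _).le hnL' 2
          have : (M : ℝ) ≤ m := by linarith
          exact_mod_cast this
      refine le_trans ?_ (prod_lowerz z n H T ρ hρ0 (by linarith) c hn1 hwinH ?_ ?_)
      · refine le_trans ?_ (exp_lower hρ0 hρ1 S)
        apply Real.exp_le_exp.2
        linarith
      · intro m hm'
        obtain ⟨hm1, hm2, hm3⟩ := hm m hm'
        refine hTle.trans ?_
        refine le_trans ?_ (hM m hm3).1
        apply Real.rpow_le_rpow (by linarith) (by linarith) (by linarith)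
      · intro m hm'
        obtain ⟨hm1, hm2, hm3⟩ := hm m hm'
        exact granz_le hδ (by linarith) hm1 hm2 (hM m hm3).2 h2
    have hcard : Real.exp (a * L) / 4 ≤ ((mults N P).card : ℝ) := by
      have h11' := mults_card_lower N P hPpos
      have hP' : (0 : ℝ) < P := by exact_mod_cast hPpos
      have h12' : (Real.exp L - 1) / (2 * P) ≤ (N : ℝ) / (2 * P) := by
        apply div_le_div_of_nonneg_right _ (by positivity)
        linarith
      have h13 : Real.exp (a * L) / 2 ≤ Real.exp L / (2 * P) := by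
        rw [div_le_div_iff₀ (by norm_num) (by positivity)]
        have h14 : Real.exp (a * L) * Real.exp (δ * L) = Real.exp L := by
          rw [← Real.exp_add]; congr 1; rw [ha]; ring
        have h15 : Real.exp (a * L) * P ≤ Real.exp L := by
          rw [← h14]
          exact mul_le_mul_of_nonneg_left hPle (Real.exp_pos _).le
        linarith
      have h16 : 1 / (2 * (P : ℝ)) ≤ 1 / 2 := by
        apply one_div_le_one_div_of_le (by norm_num)
        have : (1 : ℝ) ≤ P := by exact_mod_cast hPpos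
        linarith
      have h17 : (Real.exp L - 1) / (2 * P) = Real.exp L / (2 * P) - 1 / (2 * P) := by ring
      linarith
    calc (1 : ℝ) ≤ Real.exp (a * L) / 4 * Real.exp (-((G + τ / 2) * L)) := by
          have : Real.exp (a * L) * Real.exp (-((G + τ / 2) * L)) = Real.exp (τ / 2 * L) := by
            rw [← Real.exp_add]; congr 1; rw [hτ]; ring
          have h18 : Real.exp (a * L) / 4 * Real.exp (-((G + τ / 2) * L)) = Real.exp (τ / 2 * L) / 4 := by
            rw [← this]; ring
          rw [h18]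
          linarith
      _ ≤ ((mults N P).card : ℝ) * Real.exp (-((G + τ / 2) * L)) := by
          apply mul_le_mul_of_nonneg_right hcard (Real.exp_pos _).le
      _ = ∑ n ∈ mults N P, Real.exp (-((G + τ / 2) * L)) := by
          rw [Finset.sum_const, nsmul_eq_mul]
      _ ≤ _ := Finset.sum_le_sum hterm

end Pool.Agent.Work.MP_73869e_nt
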