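import Pool.Agent.Work.MP_73869e_nt.Defs

set_option autoImplicit false

/-!
# Borel–Cantelli for the random models, and existence of the models
-/

open MeasureTheory ProbabilityTheory Filter

namespace Pool.Agent.Work.MP_73869e_nt

section

variable {Ω : Type*} [MeasurableSpace Ω] {μ : Measure Ω} {A : ℕ → Set Ω} {d : ℕ → ℝ}

theorem meas_biInter_compl (h : iIndepSet A μ) (s : Finset ℕ) :
    μ (⋂ m ∈ s, (A m)ᶜ) = ∏ m ∈ s, μ ((A m)ᶜ) := by
  rw [iIndepSet_iff] at h
  refine h s fun i _ => ?_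
  exact (MeasurableSpace.measurableSet_generateFrom (Set.mem_singleton _)).compl

theorem meas_compl [IsProbabilityMeasure μ] {m : ℕ} (hmeas : MeasurableSet (A m))
    (hp : μ (A m) = ENNReal.ofReal (d m)) (hd : 0 ≤ d m ∧ d m ≤ 1) :
    μ ((A m)ᶜ) = ENNReal.ofReal (1 - d m) := by
  rw [prob_compl_eq_one_sub hmeas, hp, ENNReal.ofReal_sub _ hd.1, ENNReal.ofReal_one]

/-- the probability that a window contains no random element -/
theorem meas_empty_window [IsProbabilityMeasure μ] (hM : IsModel μ A d) (W : ℕ → Finset ℕ)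
    (hW : ∀ M : ℕ, ∀ᶠ n in atTop, ∀ m ∈ W n, M ≤ m)
    (hd : ∀ᶠ m in atTop, 0 ≤ d m ∧ d m ≤ 1) :
    ∃ N : ℕ, ∀ n ≥ N, μ (⋂ m ∈ W n, (A m)ᶜ) = ENNReal.ofReal (∏ m ∈ W n, (1 - d m)) ∧
      0 ≤ ∏ m ∈ W n, (1 - d m) := by
  obtain ⟨M, hM'⟩ := eventually_atTop.mp (hM.prob.and hd)
  obtain ⟨N, hN⟩ := eventually_atTop.mp (hW M)
  refine ⟨N, fun n hn => ⟨?_, ?_⟩⟩
  · rw [meas_biInter_compl hM.indep, ENNReal.ofReal_prod_of_nonneg]
    · refine Finset.prod_congr rfl fun m hm => ?_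
      have h1 := hM' m (hN n hn m hm)
      exact meas_compl (hM.meas m) h1.1 h1.2
    · intro m hm
      have h1 := hM' m (hN n hn m hm)
      linarith [h1.2.2]
  · refine Finset.prod_nonneg fun m hm => ?_
    have h1 := hM' m (hN n hn m hm)
    linarith [h1.2.2]

end

theorem ae_hit {Ω : Type*} [MeasurableSpace Ω] (μ : Measure Ω) [IsProbabilityMeasure μ]
    (A : ℕ → Set Ω) (d : ℕ → ℝ) (hM : IsModel μ A d) (W : ℕ → Finset ℕ)
    (hW : ∀ M : ℕ, ∀ᶠ n in atTop, ∀ m ∈ W n, M ≤ m)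
    (hd : ∀ᶠ m in atTop, 0 ≤ d m ∧ d m ≤ 1)
    (hsum : Summable (fun n => ∏ m ∈ W n, (1 - d m))) :
    ∀ᵐ ω ∂μ, ∀ᶠ n in atTop, ∃ m ∈ W n, ω ∈ A m := by
  obtain ⟨N, hN⟩ := meas_empty_window hM W hW hd
  have hsum' : Summable (fun n => ∏ m ∈ W (n + N), (1 - d m)) :=
    (summable_nat_add_iff N).mpr hsum
  have h1 : ∑' n, μ (⋂ m ∈ W (n + N), (A m)ᶜ) ≠ ⊤ := by
    have h2 : ∀ n, μ (⋂ m ∈ W (n + N), (A m)ᶜ) =
        ENNReal.ofReal (∏ m ∈ W (n + N), (1 - d m)) := fun n => (hN (n + N) (by omega)).1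
    simp_rw [h2]
    exact hsum'.tsum_ofReal_ne_top
  filter_upwards [ae_eventually_notMem h1] with ω hω
  obtain ⟨k, hk⟩ := eventually_atTop.mp hω
  refine eventually_atTop.mpr ⟨k + N, fun n hn => ?_⟩
  have h3 := hk (n - N) (by omega)
  rw [show n - N + N = n by omega] at h3
  by_contra hcon
  push Not at hcon
  exact h3 (by simpa using hcon)

theorem ae_miss {Ω : Type*} [MeasurableSpace Ω] (μ : Measure Ω) [IsProbabilityMeasure μ]
    (A : ℕ → Set Ω) (d : ℕ → ℝ) (hM : IsModel μ A d) (W : ℕ → Finset ℕ)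
    (hW : ∀ M : ℕ, ∀ᶠ n in atTop, ∀ m ∈ W n, M ≤ m)
    (hdisj : ∃ N0 : ℕ, ∀ n n', N0 ≤ n → n < n' → Disjoint (W n) (W n'))
    (hd : ∀ᶠ m in atTop, 0 ≤ d m ∧ d m ≤ 1)
    (hsum : ¬ Summable (fun n => ∏ m ∈ W n, (1 - d m))) :
    ∀ᵐ ω ∂μ, ∃ᶠ n in atTop, ∀ m ∈ W n, ω ∉ A m := by
  obtain ⟨N1, hN1⟩ := meas_empty_window hM W hW hd
  obtain ⟨N0, hN0⟩ := hdisj
  set N := max N0 N1 with hNdef
  set E : ℕ → Set Ω := fun n => ⋂ m ∈ W (n + N), (A m)ᶜ with hE
  have hEmeas : ∀ n, MeasurableSet (E n) := fun n =>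
    Finset.measurableSet_biInter _ fun m _ => (hM.meas m).compl
  have hind : iIndepSet E μ := by
    rw [iIndepSet_iff_meas_biInter hEmeas]
    intro s
    have h1 : ⋂ n ∈ s, E n = ⋂ m ∈ s.biUnion (fun n => W (n + N)), (A m)ᶜ := by
      ext ω
      simp only [hE, Set.mem_iInter, Finset.mem_biUnion]
      constructor
      · rintro h m ⟨n, hn, hm⟩
        exact h n hn m hm
      · intro h n hn m hm
        exact h m ⟨n, hn, hm⟩
    rw [h1, meas_biInter_compl hM.indep, Finset.prod_biUnion]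
    · refine Finset.prod_congr rfl fun n _ => ?_
      exact (meas_biInter_compl hM.indep _).symm
    · intro n _ n' _ hne
      rcases lt_or_gt_of_ne hne with h2 | h2
      · exact hN0 _ _ (by omega) (by omega)
      · exact (hN0 _ _ (by omega) (by omega)).symm
  have hval : ∀ n, μ (E n) = ENNReal.ofReal (∏ m ∈ W (n + N), (1 - d m)) :=
    fun n => (hN1 (n + N) (by omega)).1
  have hnn : ∀ n, 0 ≤ ∏ m ∈ W (n + N), (1 - d m) := fun n => (hN1 (n + N) (by omega)).2
  have htop : ∑' n, μ (E n) = ⊤ := by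
    by_contra hcon
    apply hsum
    rw [← summable_nat_add_iff N]
    have h3 : Summable (fun n => (μ (E n)).toReal) := ENNReal.summable_toReal hcon
    refine h3.congr fun n => ?_
    rw [hval n, ENNReal.toReal_ofReal (hnn n)]
  have h4 := measure_limsup_eq_one hEmeas hind htop
  have h5 : ∀ᵐ ω ∂μ, ω ∈ limsup E atTop := by
    rw [← prob_compl_eq_zero_iff (MeasurableSet.measurableSet_limsup hEmeas)] at h4
    exact h4
  filter_upwards [h5] with ω hω
  rw [mem_limsup_iff_frequently_mem] at hω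
  rw [frequently_atTop] at hω ⊢
  intro a
  obtain ⟨b, hb, hb2⟩ := hω a
  refine ⟨b + N, by omega, fun m hm => ?_⟩
  simp only [hE, Set.mem_iInter] at hb2
  exact hb2 m hm

/-- the models exist -/
theorem exists_model (d : ℕ → ℝ) (hd : ∀ᶠ m in atTop, 0 ≤ d m ∧ d m ≤ 1) :
    ∃ (Ω : Type) (_ : MeasurableSpace Ω) (μ : Measure Ω) (_ : IsProbabilityMeasure μ)
      (A : ℕ → Set Ω), IsModel μ A d := by
  classical
  -- truncated densities
  let q : ℕ → ℝ := fun m => if 0 ≤ d m ∧ d m ≤ 1 then d m else 0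
  have hq : ∀ m, 0 ≤ q m ∧ q m ≤ 1 := by
    intro m
    by_cases h : 0 ≤ d m ∧ d m ≤ 1
    · simp only [q, if_pos h]; exact h
    · simp only [q, if_neg h]; exact ⟨le_rfl, zero_le_one⟩
  let ν : ℕ → Measure Bool := fun m =>
    ENNReal.ofReal (q m) • Measure.dirac true + ENNReal.ofReal (1 - q m) • Measure.dirac false
  have hν : ∀ m, IsProbabilityMeasure (ν m) := by
    intro m
    refine ⟨?_⟩
    simp only [ν, Measure.add_apply, Measure.smul_apply, smul_eq_mul, measure_univ, mul_one]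
    rw [← ENNReal.ofReal_add (hq m).1 (by linarith [(hq m).2])]
    simp
  let μ : Measure (ℕ → Bool) := Measure.infinitePi ν
  let A : ℕ → Set (ℕ → Bool) := fun m => {ω | ω m = true}
  have hA : ∀ m, MeasurableSet (A m) := fun m =>
    measurableSet_eq_fun (measurable_pi_apply m) measurable_const
  have hbi : ∀ s : Finset ℕ, μ (⋂ m ∈ s, A m) = ∏ m ∈ s, ν m {true} := by
    intro s
    have h1 : ⋂ m ∈ s, A m = Set.pi (s : Set ℕ) (fun _ => ({true} : Set Bool)) := by
      ext ω; simp [A]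
    rw [h1]
    exact Measure.infinitePi_pi ν (fun _ _ => MeasurableSet.singleton _)
  have hone : ∀ m, μ (A m) = ν m {true} := by
    intro m
    have := hbi {m}
    simpa using this
  refine ⟨ℕ → Bool, inferInstance, μ, inferInstance, A, hA, ?_, ?_⟩
  · rw [iIndepSet_iff_meas_biInter hA]
    intro s
    rw [hbi]
    exact Finset.prod_congr rfl fun m _ => (hone m).symm
  · filter_upwards [hd] with m hm
    rw [hone]
    simp only [ν, Measure.add_apply, Measure.smul_apply, smul_eq_mul]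
    rw [Measure.dirac_apply' _ (MeasurableSet.singleton _),
      Measure.dirac_apply' _ (MeasurableSet.singleton _)]
    simp [q, hm]

end Pool.Agent.Work.MP_73869e_nt
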