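import Pool.Agent.Work.MP_73869e_nt.C3
import Pool.Agent.Work.MP_73869e_nt.N

set_option autoImplicit false

open Filter

namespace Pool.Agent.Work.MP_73869e_nt

theorem rough_card2 (h T : ℕ) (hhT : h < T ^ 3) :
    ((Finset.Icc 1 h).filter (fun j => ∀ p ≤ T, p.Prime → ¬ p ∣ j)).card
      ≤ 1 + Nat.primeCounting h +
        ∑ p ∈ (Finset.Ioc T (Nat.sqrt h)).filter Nat.Prime, Nat.primeCounting (h / p) := by
  have hsub : (Finset.Icc 1 h).filter (fun j => ∀ p ≤ T, p.Prime → ¬ p ∣ j) ⊆
      ({1} ∪ (Finset.range (h + 1)).filter Nat.Prime) ∪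
        ((Finset.Ioc T (Nat.sqrt h)).filter Nat.Prime).biUnion
          (fun p => ((Finset.range (h / p + 1)).filter Nat.Prime).image (fun q => p * q)) := by
    intro j hj
    obtain ⟨h1, h2⟩ := Finset.mem_filter.mp hj
    obtain ⟨h3, h4⟩ := Finset.mem_Icc.mp h1
    have key : ∀ p q : ℕ, p.Prime → q.Prime → p ≤ q → j = p * q →
        j ∈ ((Finset.Ioc T (Nat.sqrt h)).filter Nat.Prime).biUnion
          (fun p => ((Finset.range (h / p + 1)).filter Nat.Prime).image (fun q => p * q)) := by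
      intro p q hp hq hpq hj
      rw [Finset.mem_biUnion]
      refine ⟨p, ?_, ?_⟩
      · rw [Finset.mem_filter, Finset.mem_Ioc]
        refine ⟨⟨?_, ?_⟩, hp⟩
        · by_contra hcon
          exact h2 p (by omega) hp ⟨q, hj⟩
        · rw [Nat.le_sqrt]
          calc p * p ≤ p * q := Nat.mul_le_mul_left _ hpq
            _ = j := hj.symm
            _ ≤ h := h4
      · rw [Finset.mem_image]
        refine ⟨q, ?_, hj.symm⟩
        rw [Finset.mem_filter, Finset.mem_range]
        refine ⟨?_, hq⟩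
        rw [Nat.lt_succ_iff, Nat.le_div_iff_mul_le hp.pos]
        calc q * p = j := by rw [hj]; ring
          _ ≤ h := h4
    rw [Finset.mem_union]
    rcases rough_cases h3 h4 hhT h2 with h5 | h5 | ⟨p, q, hp, hq, hpl, hql, hpq⟩
    · left; simp [h5]
    · left; simp [h5]; omega
    · right
      rcases le_total p q with h6 | h6
      · exact key p q hp hq h6 hpq
      · exact key q p hq hp h6 (by rw [hpq]; ring)
  calc _ ≤ _ := Finset.card_le_card hsub
    _ ≤ ({1} ∪ (Finset.range (h + 1)).filter Nat.Prime).card +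
        (((Finset.Ioc T (Nat.sqrt h)).filter Nat.Prime).biUnion
          (fun p => ((Finset.range (h / p + 1)).filter Nat.Prime).image (fun q => p * q))).card :=
      Finset.card_union_le _ _
    _ ≤ (1 + Nat.primeCounting h) + _ := by
      refine Nat.add_le_add ?_ ?_
      · refine (Finset.card_union_le _ _).trans ?_
        rw [card_primes_le, Finset.card_singleton]
      · refine Finset.card_biUnion_le.trans ?_
        refine Finset.sum_le_sum fun p _ => ?_
        refine Finset.card_image_le.trans ?_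
        rw [card_primes_le]

/-- Number of `L^(1-δ)`-rough integers up to `H = c L^2`: they are `1`, primes, or products of two
primes `p ≤ q` with `L^(1-δ) < p ≤ √H` (`rough_cases` in C3). The last kind is at most
`∑_{T < p ≤ √H} π(H/p) ≤ ∑ 2 (H/p) / log √H`, and `∑_{T < p ≤ √H} 1/p = log (log √H / log T) + o(1)`
by Mertens' second theorem (`exists_M` in N1/N). -/
theorem semi_bound {c δ : ℝ} (hc : 0 < c) (hδ : 0 < δ) (hδ1 : δ < 1 / 10) :
    ∀ᶠ L : ℝ in atTop, ∀ H : ℕ, (H : ℝ) = c * L ^ 2 →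
      (((Finset.Icc 1 H).filter
          (fun j => ∀ p ≤ ⌊L ^ (1 - δ)⌋₊, p.Prime → ¬ p ∣ j)).card : ℝ)
        ≤ Nat.primeCounting H
          + (δ + 2 * (1 + δ) ^ 2 * c * (Real.log ((1 + δ) / (1 - 2 * δ)) + δ)) * (L ^ 2 / Real.log L) := by
  obtain ⟨M, hM⟩ := M3.exists_M
  -- Mertens
  have hM' : ∀ᶠ N : ℕ in atTop, |M3.PP N - Real.log (Real.log N) - M| < δ / 2 := by
    have := Metric.tendsto_nhds.mp hM (δ / 2) (by positivity)
    filter_upwards [this] with N hN
    rwa [Real.dist_eq] at hN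
  obtain ⟨N0, hN0⟩ := eventually_atTop.mp hM'
  have hlog4 : Real.log 4 + 1 / 10 ≤ 2 := by
    have h4 : Real.log 4 = 2 * Real.log 2 := by
      rw [show (4 : ℝ) = 2 ^ 2 by norm_num, Real.log_pow]; norm_num
    have := Real.log_two_lt_d9
    rw [h4]; linarith
  have hpi := Chebyshev.eventually_primeCounting_le (ε := 1 / 10) (by norm_num)
  obtain ⟨Y0, hY0⟩ := eventually_atTop.mp hpi
  -- growth facts
  have hlogT : Tendsto Real.log atTop atTop := Real.tendsto_log_atTop
  have hpow1 : Tendsto (fun L : ℝ => L ^ (1 - δ)) atTop atTop := tendsto_rpow_atTop (by linarith)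
  have hpow2 : Tendsto (fun L : ℝ => L ^ (1 - 3 * δ)) atTop atTop :=
    tendsto_rpow_atTop (by linarith)
  have hsq : Tendsto (fun L : ℝ => Real.sqrt c * L) atTop atTop :=
    tendsto_id.const_mul_atTop (Real.sqrt_pos.mpr hc)
  filter_upwards [eventually_ge_atTop (max 2 (1 / δ)),
    hpow1.eventually_ge_atTop (max 2 (N0 + 1)), hpow2.eventually_gt_atTop (8 * c),
    hlogT.eventually_ge_atTop (Real.log 2 / δ),
    hlogT.eventually_ge_atTop (|Real.log c| / δ), hlogT.eventually_gt_atTop 0,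
    hsq.eventually_ge_atTop (max Y0 2)] with L hL hL1 hL2 hL3 hL4 hL5 hL6 H hH
  have hL_2 : 2 ≤ L := le_trans (le_max_left _ _) hL
  have hL_d : 1 / δ ≤ L := le_trans (le_max_right _ _) hL
  have hL0 : 0 < L := by linarith
  set T := ⌊L ^ (1 - δ)⌋₊ with hT
  have hT1 : L ^ (1 - δ) < T + 1 := Nat.lt_floor_add_one _
  have hTN0 : N0 ≤ T := by
    have : (N0 : ℝ) + 1 ≤ L ^ (1 - δ) := le_trans (le_max_right _ _) hL1
    apply Nat.le_floor
    linarith
  have hL12 : 2 ≤ L ^ (1 - δ) := le_trans (le_max_left _ _) hL1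
  have hThalf : L ^ (1 - δ) / 2 ≤ T := by linarith
  have hTpos : (0 : ℝ) < T := by linarith
  have hT3 : H < T ^ 3 := by
    have h1 : (H : ℝ) < (T : ℝ) ^ 3 := by
      rw [hH]
      have h2 : (L ^ (1 - δ) / 2) ^ 3 ≤ (T : ℝ) ^ 3 := by gcongr
      have h3 : (L ^ (1 - δ) / 2) ^ 3 = L ^ (1 - 3 * δ) * L ^ 2 / 8 := by
        rw [div_pow, ← Real.rpow_natCast (L ^ (1 - δ)) 3, ← Real.rpow_mul hL0.le]
        rw [← Real.rpow_natCast L 2, ← Real.rpow_add hL0]
        congr 1
        · congr 1
          push_cast; ring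
        · norm_num
      rw [h3] at h2
      have h4 : 8 * c * L ^ 2 < L ^ (1 - 3 * δ) * L ^ 2 := by
        apply mul_lt_mul_of_pos_right hL2 (by positivity)
      linarith
    exact_mod_cast h1
  have hlogTlow : (1 - 2 * δ) * Real.log L ≤ Real.log T := by
    have h1 : Real.log (L ^ (1 - δ) / 2) ≤ Real.log T := Real.log_le_log (by linarith) hThalf
    rw [Real.log_div (by linarith) (by norm_num), Real.log_rpow hL0] at h1
    have h2 : Real.log 2 ≤ δ * Real.log L := by
      rw [div_le_iff₀ hδ] at hL3; linarith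
    nlinarith
  have hHpos : (0 : ℝ) < H := by rw [hH]; positivity
  have hsqrtH : Real.sqrt H = Real.sqrt c * L := by
    rw [hH, Real.sqrt_mul hc.le, Real.sqrt_sq hL0.le]
  have hlogsqrt : Real.log (Real.sqrt H) = Real.log c / 2 + Real.log L := by
    rw [hsqrtH, Real.log_mul (Real.sqrt_pos.mpr hc).ne' hL0.ne', Real.log_sqrt hc.le]
  have habs : |Real.log c| ≤ δ * Real.log L := by
    rw [div_le_iff₀ hδ] at hL4; linarith
  have hup : Real.log (Real.sqrt H) ≤ (1 + δ) * Real.log L := by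
    rw [hlogsqrt]
    have := le_abs_self (Real.log c)
    nlinarith [abs_nonneg (Real.log c)]
  have hlow : Real.log L / (1 + δ) ≤ Real.log (Real.sqrt H) := by
    rw [hlogsqrt, div_le_iff₀ (by linarith)]
    have := neg_abs_le (Real.log c)
    have h2 : -(δ * Real.log L) ≤ Real.log c := by linarith
    have h3 : 0 < δ * Real.log L := by positivity
    nlinarith
  set S := Nat.sqrt H with hS
  have hSle : (S : ℝ) ≤ Real.sqrt H := by
    rw [hS]; exact Real.nat_sqrt_le_real_sqrt
  -- bound of each term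
  have hterm : ∀ p ∈ (Finset.Ioc T S).filter Nat.Prime,
      (Nat.primeCounting (H / p) : ℝ) ≤ 2 * (1 + δ) * (H / Real.log L) * (1 / p) := by
    intro p hp
    obtain ⟨hp1, hp2⟩ := Finset.mem_filter.mp hp
    obtain ⟨hp3, hp4⟩ := Finset.mem_Ioc.mp hp1
    have hp0 : (0 : ℝ) < p := by exact_mod_cast hp2.pos
    have hpS : (p : ℝ) ≤ Real.sqrt H := le_trans (by exact_mod_cast hp4) hSle
    have hge : Real.sqrt H ≤ H / p := by
      rw [le_div_iff₀ hp0]
      calc Real.sqrt H * p ≤ Real.sqrt H * Real.sqrt H := by gcongr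
        _ = H := Real.mul_self_sqrt hHpos.le
    have hY : Y0 ≤ (H : ℝ) / p := by
      refine le_trans ?_ hge
      rw [hsqrtH]; exact le_trans (le_max_left _ _) hL6
    have h2s : 2 ≤ Real.sqrt H := by rw [hsqrtH]; exact le_trans (le_max_right _ _) hL6
    have h1 := hY0 _ hY
    rw [Nat.floor_div_eq_div] at h1
    have hlogp : Real.log L / (1 + δ) ≤ Real.log ((H : ℝ) / p) :=
      hlow.trans (Real.log_le_log (by linarith) hge)
    have hlpos : 0 < Real.log L / (1 + δ) := by positivity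
    calc (Nat.primeCounting (H / p) : ℝ) ≤ (Real.log 4 + 1 / 10) * (H / p) / Real.log (H / p) := h1
      _ ≤ 2 * (H / p) / (Real.log L / (1 + δ)) := by
        gcongr
      _ = 2 * (1 + δ) * (H / Real.log L) * (1 / p) := by
        field_simp
  have hratio : 0 ≤ Real.log ((1 + δ) / (1 - 2 * δ)) := by
    apply Real.log_nonneg
    rw [le_div_iff₀ (by linarith)]; linarith
  have hsumle : ∑ p ∈ (Finset.Ioc T S).filter Nat.Prime, (1 / (p : ℝ)) ≤
      Real.log ((1 + δ) / (1 - 2 * δ)) + δ := by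
    rcases lt_or_ge S T with hST | hST
    · rw [Finset.Ioc_eq_empty (by omega)]
      simp
      linarith
    · have e1 : ∑ p ∈ (Finset.Ioc T S).filter Nat.Prime, (1 / (p : ℝ)) = M3.PP S - M3.PP T := by
        rw [M3.PP_sub hST, Finset.sum_filter]
        refine Finset.sum_congr rfl fun n _ => ?_
        split_ifs <;> simp
      rw [e1]
      have h1 := abs_lt.mp (hN0 S (le_trans hTN0 hST))
      have h2 := abs_lt.mp (hN0 T hTN0)
      have hT2 : 0 < Real.log T := lt_of_lt_of_le (mul_pos (by linarith) hL5) hlogTlow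
      have hSpos : (0 : ℝ) < S := lt_of_lt_of_le hTpos (by exact_mod_cast hST)
      have hS2 : 0 < Real.log S := lt_of_lt_of_le hT2
        (Real.log_le_log hTpos (by exact_mod_cast hST))
      have h3 : Real.log (Real.log S) ≤ Real.log ((1 + δ) * Real.log L) := by
        apply Real.log_le_log hS2
        exact (Real.log_le_log hSpos hSle).trans hup
      have h4 : Real.log ((1 - 2 * δ) * Real.log L) ≤ Real.log (Real.log T) :=
        Real.log_le_log (mul_pos (by linarith) hL5) hlogTlow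
      rw [Real.log_mul (by linarith) hL5.ne'] at h3 h4
      rw [Real.log_div (by linarith) (by linarith)]
      linarith
  have hcard := rough_card2 H T hT3
  have hcard' : (((Finset.Icc 1 H).filter (fun j => ∀ p ≤ T, p.Prime → ¬ p ∣ j)).card : ℝ) ≤
      1 + Nat.primeCounting H +
        ∑ p ∈ (Finset.Ioc T S).filter Nat.Prime, (Nat.primeCounting (H / p) : ℝ) := by
    exact_mod_cast hcard
  refine hcard'.trans ?_
  have hsum2 : ∑ p ∈ (Finset.Ioc T S).filter Nat.Prime, (Nat.primeCounting (H / p) : ℝ) ≤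
      2 * (1 + δ) * (H / Real.log L) * (Real.log ((1 + δ) / (1 - 2 * δ)) + δ) := by
    calc _ ≤ ∑ p ∈ (Finset.Ioc T S).filter Nat.Prime,
          2 * (1 + δ) * (H / Real.log L) * (1 / (p : ℝ)) := Finset.sum_le_sum hterm
      _ = 2 * (1 + δ) * (H / Real.log L) *
          ∑ p ∈ (Finset.Ioc T S).filter Nat.Prime, (1 / (p : ℝ)) := by rw [Finset.mul_sum]
      _ ≤ _ := by gcongr
  have hone : 1 ≤ δ * (L ^ 2 / Real.log L) := by
    have h1 : Real.log L ≤ L := (Real.log_le_sub_one_of_pos hL0).trans (by linarith)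
    have h2 : L ≤ L ^ 2 / Real.log L := by
      rw [le_div_iff₀ hL5]; nlinarith
    have h3 : 1 ≤ δ * L := by
      rw [div_le_iff₀ hδ] at hL_d; linarith
    calc 1 ≤ δ * L := h3
      _ ≤ _ := by gcongr
  have hfin : 2 * (1 + δ) * (H / Real.log L) * (Real.log ((1 + δ) / (1 - 2 * δ)) + δ) ≤
      2 * (1 + δ) ^ 2 * c * (Real.log ((1 + δ) / (1 - 2 * δ)) + δ) * (L ^ 2 / Real.log L) := by
    rw [hH]
    set A := Real.log ((1 + δ) / (1 - 2 * δ)) + δ
    have hA : 0 ≤ A := by positivity
    have h1 : 2 * (1 + δ) * (c * L ^ 2 / Real.log L) * A =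
        (2 * (1 + δ) * c * A) * (L ^ 2 / Real.log L) := by ring
    rw [h1]
    have h2 : (2 * (1 + δ) * c * A) ≤ 2 * (1 + δ) ^ 2 * c * A := by
      have : 0 ≤ c * A := by positivity
      nlinarith [mul_nonneg (mul_nonneg hδ.le this) (by linarith : (0 : ℝ) ≤ 1 + δ)]
    gcongr
  linarith [hsum2, hone, hfin]

end Pool.Agent.Work.MP_73869e_nt
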