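import Pool.Agent.Work.MP_73869e_nt.GB
import Pool.Agent.Work.MP_73869e_nt.C1
import Pool.Agent.Work.MP_73869e_nt.SB
import Pool.Agent.Work.MP_73869e_nt.P
import Pool.Agent.Work.MP_73869e_nt.WB

set_option autoImplicit false

open MeasureTheory ProbabilityTheory Filter Topology

namespace Pool.Agent.Work.MP_73869e_nt

theorem granz_not_summable {z : ℕ → ℝ} (hz : LogLike z) {c : ℝ}
    (hcond : c < 4 * Real.exp (-Real.eulerMascheroniConstant)) :
    ¬ Summable (fun n => ∏ m ∈ win c n, (1 - granz z m)) := by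
  intro hsum
  rcases le_or_gt c 0 with hc | hc
  · have h1 : (fun n => ∏ m ∈ win c n, (1 - granz z m)) = fun _ => (1 : ℝ) := by
      funext n
      have : win c n = ∅ := by
        unfold win
        rw [Nat.floor_of_nonpos (mul_nonpos_of_nonpos_of_nonneg hc (sq_nonneg _))]
        simp
      rw [this, Finset.prod_empty]
    rw [h1] at hsum
    have := (summable_const_iff (1 : ℝ)).1 hsum
    norm_num at this
  have hE : 0 < Real.exp Real.eulerMascheroniConstant := Real.exp_pos _
  have hcE : c * Real.exp Real.eulerMascheroniConstant / 4 < 1 := by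
    have h1 : Real.exp (-Real.eulerMascheroniConstant) * Real.exp Real.eulerMascheroniConstant = 1 := by
      rw [← Real.exp_add]; simp
    have h2 := mul_lt_mul_of_pos_right hcond hE
    rw [mul_assoc, h1] at h2
    linarith
  -- choose δ
  obtain ⟨δ, hδ0, hδ1, hδG⟩ : ∃ δ : ℝ, 0 < δ ∧ δ < 1 / 10 ∧
      (1 + δ) ^ 3 * (Real.exp Real.eulerMascheroniConstant + δ) * ((1 + δ) ^ 2 * c / 2 +
      (δ + 2 * (1 + δ) ^ 2 * c * (Real.log ((1 + δ) / (1 - 2 * δ)) + δ))) / 2 + 2 * δ < 1 := by
    have hcont : ContinuousAt (fun δ : ℝ =>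
        (1 + δ) ^ 3 * (Real.exp Real.eulerMascheroniConstant + δ) * ((1 + δ) ^ 2 * c / 2 +
      (δ + 2 * (1 + δ) ^ 2 * c * (Real.log ((1 + δ) / (1 - 2 * δ)) + δ))) / 2 + 2 * δ) 0 := by
      have h1 : ContinuousAt (fun δ : ℝ => Real.log ((1 + δ) / (1 - 2 * δ))) 0 := by
        apply ContinuousAt.log
        · apply ContinuousAt.div
          · fun_prop
          · fun_prop
          · norm_num
        · norm_num
      fun_prop
    have h0 : (fun δ : ℝ =>
        (1 + δ) ^ 3 * (Real.exp Real.eulerMascheroniConstant + δ) * ((1 + δ) ^ 2 * c / 2 +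
      (δ + 2 * (1 + δ) ^ 2 * c * (Real.log ((1 + δ) / (1 - 2 * δ)) + δ))) / 2 + 2 * δ) 0 < 1 := by
      simp only
      norm_num
      nlinarith
    have h1 := hcont.eventually_lt continuousAt_const h0
    have h2 := h1.filter_mono (nhdsWithin_le_nhds (s := Set.Ioi 0))
    have h3 : ∀ᶠ δ in 𝓝[>] (0 : ℝ), δ ∈ Set.Ioo (0 : ℝ) (1 / 10) := Ioo_mem_nhdsGT (by norm_num)
    obtain ⟨δ, h4, h5⟩ := (h2.and h3).exists
    exact ⟨δ, h5.1, h5.2, h4⟩
  have hscale := scalez (z := z) hc hδ0 hδ1 rfl rfl hδG mertens_third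
    ((hz δ hδ0).mono fun _ h => h.1) ((hz δ hδ0).mono fun _ h => h.2) (semi_bound hc hδ0 hδ1)
  obtain ⟨L0, hL0⟩ := eventually_atTop.1 hscale
  rw [summable_iff_vanishing_norm] at hsum
  obtain ⟨s, hs⟩ := hsum 1 one_pos
  obtain ⟨N0, hN0⟩ : ∃ N0 : ℕ, ∀ n ∈ s, n < N0 := by
    refine ⟨s.sup id + 1, fun n hn => ?_⟩
    have := Finset.le_sup (f := id) hn
    simp only [id] at this
    omega
  set L1 : ℝ := max (max L0 1) (Real.log (N0 + 1) + 1) with hL1
  obtain ⟨H, hHX, hpi⟩ := exists_pi_small hδ0 (⌈c * L1 ^ 2⌉₊)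
  set L : ℝ := Real.sqrt (H / c) with hL
  have hL1pos : 0 < L1 := lt_of_lt_of_le one_pos ((le_max_right _ _).trans (le_max_left _ _))
  have hHc : c * L1 ^ 2 ≤ H := (Nat.le_ceil _).trans (by exact_mod_cast hHX)
  have hLsq : (H : ℝ) = c * L ^ 2 := by
    rw [hL, Real.sq_sqrt (by positivity)]
    field_simp
  have hLL1 : L1 ≤ L := by
    rw [hL]
    apply Real.le_sqrt_of_sq_le
    rw [le_div_iff₀ hc]
    linarith
  obtain ⟨F, hF1, hF2⟩ := hL0 L (((le_max_left _ _).trans (le_max_left _ _)).trans hLL1) H hLsq hpi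
  have hdisj : Disjoint F s := by
    rw [Finset.disjoint_left]
    intro n hnF hns
    have h1 := hF1 n hnF
    have h2 := hN0 n hns
    have h3 : Real.log (N0 + 1) ≤ L - 1 := by
      have := (le_max_right (max L0 1) (Real.log (N0 + 1) + 1)).trans hLL1
      linarith
    have h4 : (N0 : ℝ) + 1 ≤ Real.exp (L - 1) := by
      rw [← Real.exp_log (by positivity : (0 : ℝ) < (N0 : ℝ) + 1)]
      exact Real.exp_le_exp.2 h3
    have h5 : (n : ℝ) < N0 := by exact_mod_cast h2
    linarith
  have h6 := hs F hdisj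
  rw [Real.norm_eq_abs] at h6
  have h7 := le_abs_self (∑ n ∈ F, ∏ m ∈ win c n, (1 - granz z m))
  linarith

/-- the density is eventually a probability -/
theorem granz_prob {z : ℕ → ℝ} (hz : LogLike z) :
    ∀ᶠ m : ℕ in atTop, 0 ≤ granz z m ∧ granz z m ≤ 1 := by
  set E := Real.exp Real.eulerMascheroniConstant with hE
  have hEpos : 0 < E := Real.exp_pos _
  have t1 : Tendsto (fun y : ℝ => (mert y * Real.log y)⁻¹) atTop
      (𝓝 ((Real.exp (-Real.eulerMascheroniConstant))⁻¹)) :=
    mertens_third.inv₀ (Real.exp_pos _).ne'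
  have t2 : (Real.exp (-Real.eulerMascheroniConstant))⁻¹ < E + 1 := by
    rw [← Real.exp_neg, neg_neg]; linarith
  have t3 : ∀ᶠ y : ℝ in atTop, (mert y * Real.log y)⁻¹ < E + 1 := t1.eventually_lt_const t2
  have tl : Tendsto (fun m : ℕ => Real.log (m : ℝ)) atTop atTop :=
    Real.tendsto_log_atTop.comp tendsto_natCast_atTop_atTop
  have t4 : Tendsto (fun m : ℕ => (Real.log (m : ℝ)) ^ (2 : ℝ)) atTop atTop :=
    (tendsto_rpow_atTop (by norm_num : (0 : ℝ) < 2)).comp tl
  have tlog : Tendsto (fun L : ℝ => Real.log L / L) atTop (𝓝 0) := by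
    have := Real.isLittleO_log_id_atTop.tendsto_div_nhds_zero
    simpa using this
  have t5 : ∀ᶠ m : ℕ in atTop, Real.log (Real.log m) / Real.log m < 1 / (2 * (E + 1)) :=
    (tlog.comp tl).eventually_lt_const (by positivity)
  filter_upwards [t4.eventually t3, t5, tl.eventually_ge_atTop 3, hz 1 one_pos,
    t4.eventually_gt_atTop 1] with m h3 h5 h6 hzm h7
  refine ⟨granz_nonneg m, ?_⟩
  unfold granz
  split_ifs
  · norm_num
  · have hz2 : z m ≤ (Real.log m) ^ (2 : ℝ) := by
      have := hzm.2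
      norm_num at this ⊢
      exact this
    have h8 : mert ((Real.log m) ^ (2 : ℝ)) ≤ mert (z m) := mert_anti hz2
    have h9 := mert_pos ((Real.log m) ^ (2 : ℝ))
    have h10 : 0 < Real.log ((Real.log m) ^ (2 : ℝ)) := Real.log_pos h7
    rw [inv_eq_one_div, div_lt_iff₀ (by positivity)] at h3
    have h11 : Real.log ((Real.log m) ^ (2 : ℝ)) = 2 * Real.log (Real.log m) := by
      rw [Real.log_rpow (by linarith)]
    rw [h11] at h3 h10
    have h12 : 0 < Real.log (Real.log m) := by linarith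
    rw [div_lt_div_iff₀ (by linarith) (by positivity)] at h5
    have h13 : 0 < mert (z m) * Real.log m := by
      apply mul_pos (lt_of_lt_of_le h9 h8); linarith
    rw [div_le_one h13]
    have h14 : (E + 1) * (mert ((Real.log m) ^ (2 : ℝ)) * (2 * Real.log (Real.log m))) ≤
        mert ((Real.log m) ^ (2 : ℝ)) * Real.log m := by
      have : mert ((Real.log m) ^ (2 : ℝ)) * (Real.log (Real.log m) * (2 * (E + 1))) ≤
          mert ((Real.log m) ^ (2 : ℝ)) * (1 * Real.log m) :=
        mul_le_mul_of_nonneg_left h5.le h9.le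
      linarith
    have h15 : mert ((Real.log m) ^ (2 : ℝ)) * Real.log m ≤ mert (z m) * Real.log m :=
      mul_le_mul_of_nonneg_right h8 (by linarith)
    linarith

/-- in Granville's model, infinitely many windows contain no random prime -/
theorem granville_main {z : ℕ → ℝ} (hz : LogLike z) {c : ℝ}
    (hcond : c < 4 * Real.exp (-Real.eulerMascheroniConstant))
    {Ω : Type*} [MeasurableSpace Ω] (μ : Measure Ω) [IsProbabilityMeasure μ]
    (A : ℕ → Set Ω) (hM : IsModel μ A (granz z)) :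
    ∀ᵐ ω ∂μ, ∃ᶠ n in atTop, ∀ m ∈ win c n, ω ∉ A m :=
  ae_miss μ A _ hM (win c) (win_large c) (win_disjoint c) (granz_prob hz) (granz_not_summable hz hcond)

end Pool.Agent.Work.MP_73869e_nt
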