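import Pool.Agent.Work.MP_73869e_nt.N1

set_option autoImplicit false

open Filter Topology Finset MeasureTheory

namespace Pool.Agent.Work.MP_73869e_nt.M3

theorem int_piece (a c : ℝ) (hc : 0 ≤ c) :
    ∫ u in Set.Ioi (0 : ℝ), (Set.Ici c).indicator (fun u => a * Real.exp (-u)) u =
      a * Real.exp (-c) := by
  rw [setIntegral_indicator measurableSet_Ici]
  rcases hc.eq_or_lt with rfl | hc
  · have : Set.Ioi (0 : ℝ) ∩ Set.Ici 0 = Set.Ioi 0 := by
      ext x; simp only [Set.mem_inter_iff, Set.mem_Ioi, Set.mem_Ici]; constructor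
      · exact fun h => h.1
      · exact fun h => ⟨h, h.le⟩
    rw [this, integral_const_mul, integral_exp_neg_Ioi]
  · have : Set.Ioi (0 : ℝ) ∩ Set.Ici c = Set.Ici c := by
      ext x; simp only [Set.mem_inter_iff, Set.mem_Ioi, Set.mem_Ici]; constructor
      · exact fun h => h.2
      · exact fun h => ⟨hc.trans_le h, h⟩
    rw [this, integral_Ici_eq_integral_Ioi, integral_const_mul, integral_exp_neg_Ioi]

theorem integrable_piece (a c : ℝ) :
    Integrable (fun u => (Set.Ici c).indicator (fun u => a * Real.exp (-u)) u)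
      (volume.restrict (Set.Ioi (0 : ℝ))) := by
  have h : Integrable (fun u : ℝ => a * Real.exp (-u)) (volume.restrict (Set.Ioi (0 : ℝ))) :=
    (integrableOn_exp_neg_Ioi 0).const_mul a
  exact h.indicator measurableSet_Ici

/-- Laplace transform of a step function -/
theorem laplace (a lam : ℕ → ℝ) (ha : ∀ k, 0 ≤ a k) (hl : ∀ k, 0 ≤ lam k) (δ : ℝ) (hδ : 0 < δ)
    (hs : Summable (fun k => a k * Real.exp (-(δ * lam k)))) (S : ℝ → ℝ)
    (hS : ∀ t, 0 < t → S t = ∑' k, if lam k ≤ t then a k else 0)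
    (hpos : ∃ k, 0 < a k) :
    Integrable (fun u => S (u / δ) * Real.exp (-u)) (volume.restrict (Set.Ioi (0 : ℝ))) ∧
      ∫ u in Set.Ioi (0 : ℝ), S (u / δ) * Real.exp (-u) = ∑' k, a k * Real.exp (-(δ * lam k)) := by
  have h1 := hasSum_integral_of_summable_integral_norm
    (F := fun (k : ℕ) (u : ℝ) =>
      (Set.Ici (δ * lam k)).indicator (fun u => a k * Real.exp (-u)) u)
    (μ := volume.restrict (Set.Ioi (0 : ℝ))) (fun k => integrable_piece _ _) (by
      have : (fun k => ∫ u in Set.Ioi (0 : ℝ),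
          ‖(Set.Ici (δ * lam k)).indicator (fun u => a k * Real.exp (-u)) u‖) =
          fun k => a k * Real.exp (-(δ * lam k)) := by
        funext k
        rw [← int_piece (a k) (δ * lam k) (by have := hl k; positivity)]
        congr 1
        funext u
        rw [Real.norm_of_nonneg]
        apply Set.indicator_nonneg
        intro u _
        have := ha k
        positivity
      rw [this]
      exact hs)
  have h2 : (∫ u in Set.Ioi (0 : ℝ), ∑' k,
      (Set.Ici (δ * lam k)).indicator (fun u => a k * Real.exp (-u)) u) =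
      ∫ u in Set.Ioi (0 : ℝ), S (u / δ) * Real.exp (-u) := by
    refine setIntegral_congr_fun measurableSet_Ioi fun u hu => ?_
    simp only [Set.mem_Ioi] at hu
    rw [hS _ (by positivity), ← tsum_mul_right]
    congr 1
    funext k
    by_cases h : lam k ≤ u / δ
    · have h' : δ * lam k ≤ u := by
        rw [le_div_iff₀ hδ] at h
        linarith
      rw [if_pos h, Set.indicator_of_mem (by simpa using h')]
    · have h' : ¬ δ * lam k ≤ u := by
        rw [le_div_iff₀ hδ] at h
        intro h''; apply h; linarith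
      rw [if_neg h, Set.indicator_of_notMem (by simpa using h'), zero_mul]
  have h3 : ∫ u in Set.Ioi (0 : ℝ), S (u / δ) * Real.exp (-u) =
      ∑' k, a k * Real.exp (-(δ * lam k)) := by
    rw [← h2, ← h1.tsum_eq]
    congr 1
    funext k
    rw [int_piece _ _ (by have := hl k; positivity)]
  refine ⟨?_, h3⟩
  by_contra hni
  rw [integral_undef hni] at h3
  obtain ⟨k, hk⟩ := hpos
  have := hs.tsum_pos (fun k => by have := ha k; positivity) k (by positivity)
  linarith

theorem log_floor : Tendsto (fun x : ℝ => Real.log (⌊x⌋₊ : ℝ) - Real.log x) atTop (𝓝 0) := by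
  have h := (tendsto_nat_floor_div_atTop (R := ℝ)).log one_ne_zero
  rw [Real.log_one] at h
  refine h.congr' ?_
  filter_upwards [eventually_ge_atTop 1] with x hx
  have h1 : (0 : ℝ) < ⌊x⌋₊ := by exact_mod_cast Nat.floor_pos.2 hx
  rw [Real.log_div h1.ne' (by linarith)]

theorem loglog_floor : Tendsto (fun x : ℝ => Real.log (Real.log (⌊x⌋₊ : ℝ)) - Real.log (Real.log x))
    atTop (𝓝 0) := by
  have h1 : Tendsto (fun x : ℝ => Real.log (⌊x⌋₊ : ℝ) / Real.log x) atTop (𝓝 1) := by
    have h2 : Tendsto (fun x : ℝ => 1 + (Real.log (⌊x⌋₊ : ℝ) - Real.log x) / Real.log x) atTop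
        (𝓝 (1 + 0)) := by
      apply Tendsto.add tendsto_const_nhds
      exact log_floor.div_atTop Real.tendsto_log_atTop
    rw [add_zero] at h2
    refine h2.congr' ?_
    filter_upwards [eventually_gt_atTop 1] with x hx
    have := (Real.log_pos hx).ne'
    field_simp
    ring
  have h := h1.log one_ne_zero
  rw [Real.log_one] at h
  refine h.congr' ?_
  filter_upwards [eventually_ge_atTop 3] with x hx
  have h1 : (3 : ℝ) ≤ ⌊x⌋₊ := by exact_mod_cast Nat.le_floor (by simpa using hx)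
  rw [Real.log_div (Real.log_pos (by linarith)).ne' (Real.log_pos (by linarith)).ne']

/-- the difference of the two step functions -/
noncomputable def D (t : ℝ) : ℝ := PP ⌊Real.exp t⌋₊ - (harmonic ⌊t⌋₊ : ℝ)

theorem D_lim {M : ℝ} (hM : Tendsto (fun N : ℕ => PP N - Real.log (Real.log N)) atTop (𝓝 M)) :
    Tendsto D atTop (𝓝 (M - Real.eulerMascheroniConstant)) := by
  have h1 : Tendsto (fun t : ℝ => PP ⌊Real.exp t⌋₊ - Real.log (Real.log (⌊Real.exp t⌋₊ : ℝ)))
      atTop (𝓝 M) := hM.comp (tendsto_nat_floor_atTop.comp Real.tendsto_exp_atTop)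
  have h2 : Tendsto (fun t : ℝ => (harmonic ⌊t⌋₊ : ℝ) - Real.log (⌊t⌋₊ : ℝ)) atTop
      (𝓝 Real.eulerMascheroniConstant) :=
    Real.tendsto_harmonic_sub_log.comp tendsto_nat_floor_atTop
  have h3 := loglog_floor.comp Real.tendsto_exp_atTop
  have h4 := ((h1.sub h2).add h3).sub log_floor
  simp only [Function.comp_def, Real.log_exp, add_zero, sub_zero] at h4
  refine h4.congr fun t => ?_
  unfold D
  ring

theorem harm_mono : Monotone (fun n : ℕ => (harmonic n : ℝ)) := by
  apply monotone_nat_of_le_succ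
  intro n
  simp only [harmonic_succ]
  push_cast
  have : (0 : ℝ) ≤ ((n : ℝ) + 1)⁻¹ := by positivity
  linarith

theorem harm_nonneg (n : ℕ) : 0 ≤ (harmonic n : ℝ) := by
  have := harm_mono (Nat.zero_le n)
  simpa using this

theorem D_bdd {L : ℝ} (h : Tendsto D atTop (𝓝 L)) : ∃ K : ℝ, ∀ t, 0 ≤ t → |D t| ≤ K := by
  have h1 := h.abs
  obtain ⟨T, hT⟩ := (h1.eventually (gt_mem_nhds (show |L| < |L| + 1 by linarith))).exists_forall_of_atTop
  refine ⟨max (|L| + 1) (PP ⌊Real.exp T⌋₊ + harmonic ⌊T⌋₊), fun t ht => ?_⟩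
  by_cases hc : T ≤ t
  · exact (hT t hc).le.trans (le_max_left _ _)
  · push Not at hc
    refine le_trans ?_ (le_max_right _ _)
    have a1 : PP ⌊Real.exp t⌋₊ ≤ PP ⌊Real.exp T⌋₊ :=
      PP_mono (Nat.floor_mono (Real.exp_le_exp.2 hc.le))
    have a2 : (harmonic ⌊t⌋₊ : ℝ) ≤ harmonic ⌊T⌋₊ := harm_mono (Nat.floor_mono hc.le)
    have a3 := PP_nonneg ⌊Real.exp t⌋₊
    have a4 := harm_nonneg ⌊t⌋₊
    unfold D
    rw [abs_le]
    constructor <;> linarith

theorem D_meas : Measurable D := by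
  have h1 : Measurable (fun t : ℝ => PP ⌊Real.exp t⌋₊) :=
    (measurable_from_nat (f := PP)).comp (Nat.measurable_floor.comp Real.measurable_exp)
  have h2 : Measurable (fun t : ℝ => ((harmonic ⌊t⌋₊ : ℚ) : ℝ)) :=
    (measurable_from_nat (f := fun n : ℕ => ((harmonic n : ℚ) : ℝ))).comp Nat.measurable_floor
  exact h1.sub h2

theorem D_int {L : ℝ} (h : Tendsto D atTop (𝓝 L)) :
    Tendsto (fun δ : ℝ => ∫ u in Set.Ioi (0 : ℝ), D (u / δ) * Real.exp (-u)) (𝓝[>] 0) (𝓝 L) := by
  obtain ⟨K, hK⟩ := D_bdd h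
  have hlim : ∫ u in Set.Ioi (0 : ℝ), L * Real.exp (-u) = L := by
    rw [integral_const_mul, integral_exp_neg_Ioi]
    simp
  suffices hh : Tendsto (fun δ : ℝ => ∫ u in Set.Ioi (0 : ℝ), D (u / δ) * Real.exp (-u)) (𝓝[>] 0)
      (𝓝 (∫ u in Set.Ioi (0 : ℝ), L * Real.exp (-u))) by rwa [hlim] at hh
  apply tendsto_integral_filter_of_dominated_convergence (fun u => K * Real.exp (-u))
  · filter_upwards with δ
    apply Measurable.aestronglyMeasurable
    exact (D_meas.comp (measurable_id.div_const δ)).mul (Real.measurable_exp.comp measurable_neg)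
  · filter_upwards [self_mem_nhdsWithin] with δ hδ
    simp only [Set.mem_Ioi] at hδ
    filter_upwards [ae_restrict_mem measurableSet_Ioi] with u hu
    simp only [Set.mem_Ioi] at hu
    rw [norm_mul, Real.norm_eq_abs, Real.norm_of_nonneg (Real.exp_pos _).le]
    have := hK (u / δ) (by positivity)
    gcongr
  · exact (integrableOn_exp_neg_Ioi 0).const_mul K
  · filter_upwards [ae_restrict_mem measurableSet_Ioi] with u hu
    simp only [Set.mem_Ioi] at hu
    apply Tendsto.mul_const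
    apply h.comp
    have : Tendsto (fun δ : ℝ => δ⁻¹) (𝓝[>] 0) atTop := tendsto_inv_nhdsGT_zero
    exact (this.const_mul_atTop hu).congr fun δ => (div_eq_mul_inv u δ).symm

/-- the coefficient sequence of the primes -/
noncomputable def ap (k : ℕ) : ℝ := if k.Prime then 1 / (k : ℝ) else 0

theorem ap_nonneg (k : ℕ) : 0 ≤ ap k := by
  unfold ap; split_ifs <;> positivity

theorem PP_tsum (t : ℝ) : PP ⌊Real.exp t⌋₊ = ∑' k : ℕ, if Real.log (k : ℝ) ≤ t then ap k else 0 := by
  rw [tsum_eq_sum (s := (Ioc 0 ⌊Real.exp t⌋₊).filter Nat.Prime)]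
  · unfold PP
    refine Finset.sum_congr rfl fun p hp => ?_
    simp only [Finset.mem_filter, Finset.mem_Ioc] at hp
    have h1 : (0 : ℝ) < p := by exact_mod_cast hp.1.1
    have h2 : (p : ℝ) ≤ Real.exp t := (Nat.le_floor_iff (Real.exp_pos _).le).1 hp.1.2
    rw [if_pos ((Real.log_le_iff_le_exp h1).2 h2), ap, if_pos hp.2]
  · intro p hp
    simp only [Finset.mem_filter, Finset.mem_Ioc] at hp
    by_cases hpp : p.Prime
    · rw [if_neg]
      intro h
      apply hp
      have h1 : (0 : ℝ) < p := by exact_mod_cast hpp.pos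
      exact ⟨⟨hpp.pos, (Nat.le_floor_iff (Real.exp_pos _).le).2
        ((Real.log_le_iff_le_exp h1).1 h)⟩, hpp⟩
    · simp [ap, hpp]

theorem harm_tsum (t : ℝ) : (harmonic ⌊t⌋₊ : ℝ) =
    ∑' k : ℕ, if ((k : ℝ) + 1) ≤ t then 1 / ((k : ℝ) + 1) else 0 := by
  rw [tsum_eq_sum (s := range ⌊t⌋₊)]
  · unfold harmonic
    push_cast
    refine Finset.sum_congr rfl fun k hk => ?_
    rw [Finset.mem_range] at hk
    rw [if_pos, one_div]
    have : k + 1 ≤ ⌊t⌋₊ := hk
    have h := (Nat.le_floor_iff' (by omega)).1 this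
    push_cast at h
    exact h
  · intro k hk
    rw [Finset.mem_range] at hk
    rw [if_neg]
    intro h
    apply hk
    have : k + 1 ≤ ⌊t⌋₊ := (Nat.le_floor_iff' (by omega)).2 (by push_cast; exact h)
    exact this

theorem ap_exp (δ : ℝ) (k : ℕ) : ap k * Real.exp (-(δ * Real.log k)) =
    if k.Prime then (k : ℝ) ^ (-(1 + δ)) else 0 := by
  unfold ap
  split_ifs with h
  · have h1 : (0 : ℝ) < k := by exact_mod_cast h.pos
    rw [Real.rpow_neg h1.le, Real.rpow_add h1, Real.rpow_one, Real.rpow_def_of_pos h1,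
      Real.exp_neg, mul_comm δ]
    field_simp
  · simp

theorem ap_summable {δ : ℝ} (hδ : 0 < δ) :
    Summable (fun k : ℕ => ap k * Real.exp (-(δ * Real.log k))) := by
  have h1 : Summable (fun k : ℕ => (k : ℝ) ^ (-(1 + δ))) := by
    rw [Real.summable_nat_rpow]; linarith
  refine Summable.of_nonneg_of_le (fun k => ?_) (fun k => ?_) h1
  · have := ap_nonneg k; positivity
  · rw [ap_exp]
    split_ifs
    · exact le_rfl
    · positivity

theorem E_hasSum {δ : ℝ} (hδ : 0 < δ) :
    HasSum (fun k : ℕ => 1 / ((k : ℝ) + 1) * Real.exp (-(δ * ((k : ℝ) + 1))))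
      (-Real.log (1 - Real.exp (-δ))) := by
  have h1 : |Real.exp (-δ)| < 1 := by
    rw [abs_of_pos (Real.exp_pos _)]
    rw [Real.exp_lt_one_iff]
    linarith
  have h := Real.hasSum_pow_div_log_of_abs_lt_one h1
  convert h using 2 with k
  rw [← Real.exp_nat_mul]
  push_cast
  rw [show -(δ * ((k : ℝ) + 1)) = ((k : ℝ) + 1) * -δ by ring]
  ring

/-- Hardy–Wright's comparison -/
theorem compare {M : ℝ}
    (hM : Tendsto (fun N : ℕ => PP N - Real.log (Real.log N)) atTop (𝓝 M)) :
    Tendsto (fun δ : ℝ => (∑' k : ℕ, ap k * Real.exp (-(δ * Real.log k))) +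
      Real.log (1 - Real.exp (-δ))) (𝓝[>] 0) (𝓝 (M - Real.eulerMascheroniConstant)) := by
  refine (D_int (D_lim hM)).congr' ?_
  filter_upwards [self_mem_nhdsWithin] with δ hδ
  simp only [Set.mem_Ioi] at hδ
  have h1 := laplace ap (fun k => Real.log k) ap_nonneg
    (fun k => Real.log_natCast_nonneg k) δ hδ (ap_summable hδ)
    (fun t => PP ⌊Real.exp t⌋₊) (fun t _ => PP_tsum t) ⟨2, by norm_num [ap, Nat.prime_two]⟩
  have h2 := laplace (fun k => 1 / ((k : ℝ) + 1)) (fun k => (k : ℝ) + 1) (fun k => by positivity)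
    (fun k => by positivity) δ hδ (E_hasSum hδ).summable
    (fun t => (harmonic ⌊t⌋₊ : ℝ)) (fun t _ => harm_tsum t) ⟨0, by norm_num⟩
  have h3 := integral_sub h1.1 h2.1
  rw [h1.2, h2.2, (E_hasSum hδ).tsum_eq] at h3
  rw [← sub_neg_eq_add, ← h3]
  congr 1
  funext u
  unfold D
  ring

end Pool.Agent.Work.MP_73869e_nt.M3
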